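import Mathlib

/-!
Problem level definitions for MP_4e1fb1_an (general compact space `K`).
-/

namespace Pool.Agent.SeqK

open MeasureTheory Topology Filter

/-- The Baire sigma-algebra of a topological space `(X, t)`: the smallest sigma-algebra on `X`
making every `t`-continuous function `g : X → ℝ` measurable. -/
def baire (X : Type*) (t : TopologicalSpace X) : MeasurableSpace X :=
  ⨆ g : {g : X → ℝ // @Continuous X ℝ t _ g}, MeasurableSpace.comap g.1 (borel ℝ)

/-- The topology of pointwise convergence on `C(K)`; `C(K)` with it is `C_p(K)`. -/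
def pointwiseTop (K : Type*) [TopologicalSpace K] : TopologicalSpace C(K, ℝ) :=
  TopologicalSpace.induced (fun (f : C(K, ℝ)) (x : K) => f x) Pi.topologicalSpace

/-- The weak topology of the Banach space `C(K)`: the coarsest topology making all
continuous linear functionals continuous; `C(K)` with it is `C_w(K)`. -/
def weakTop (K : Type*) [TopologicalSpace K] [CompactSpace K] : TopologicalSpace C(K, ℝ) :=
  TopologicalSpace.induced (fun (f : C(K, ℝ)) (φ : StrongDual ℝ C(K, ℝ)) => φ f)
    Pi.topologicalSpace

/-- `M(K) = C(K)^*` with its weak* topology. -/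
abbrev MK (K : Type*) [TopologicalSpace K] [CompactSpace K] : Type _ := WeakDual ℝ C(K, ℝ)

/-- The set `Δ_K` of Dirac measures, as functionals `f ↦ f x`. -/
def diracs (K : Type*) [TopologicalSpace K] [CompactSpace K] : Set (MK K) :=
  {φ | ∃ x : K, ∀ f : C(K, ℝ), φ f = f x}

/-- `P(K)`: the Radon probability measures on `K`, as functionals on `C(K)`. -/
def probs (K : Type*) [TopologicalSpace K] [CompactSpace K] [MeasurableSpace K] [BorelSpace K] :
    Set (MK K) :=
  {φ | ∃ μ : Measure K, IsProbabilityMeasure μ ∧ μ.Regular ∧ ∀ f : C(K, ℝ), φ f = ∫ x, f x ∂μ}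

/-- One step: the limits of convergent sequences of elements of `A`. -/
def seqStep {X : Type*} [TopologicalSpace X] (A : Set X) : Set X :=
  {x | ∃ u : ℕ → X, (∀ n, u n ∈ A) ∧ Tendsto u atTop (𝓝 x)}

/-- `Seq^α(A)`: `Seq^0(A) = A`, `Seq^(α+1)(A)` is the set of limits of convergent sequences in
`Seq^α(A)`, and unions are taken at limit ordinals. -/
noncomputable def seqIter {X : Type*} [TopologicalSpace X] (A : Set X) (α : Ordinal.{0}) : Set X :=
  Ordinal.limitRecOn α A (fun _ S => seqStep S)
    (fun o _ F => {x | ∃ (β : Ordinal.{0}) (h : β < o), x ∈ F β h})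

/-- `Seq(A) = ⋃_{α < ω₁} Seq^α(A)`. -/
noncomputable def seqHull {X : Type*} [TopologicalSpace X] (A : Set X) : Set X :=
  {x | ∃ α : Ordinal.{0}, α < Ordinal.omega 1 ∧ x ∈ seqIter A α}

/-- The equality `Seq(co Δ_K) = P(K)`. -/
def SeqProp (K : Type*) [TopologicalSpace K] [CompactSpace K] [MeasurableSpace K] [BorelSpace K] :
    Prop :=
  seqHull (convexHull ℝ (diracs K)) = probs K

/-- The equality `Ba(C_p(K)) = Ba(C_w(K))`. -/
def BaireProp (K : Type*) [TopologicalSpace K] [CompactSpace K] : Prop :=
  baire C(K, ℝ) (pointwiseTop K) = baire C(K, ℝ) (weakTop K)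

end Pool.Agent.SeqK
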