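import Mathlib
import Pool.Agent.SeqK.Defs

/-!
The concrete index sets, the pathological ideal, the space `KK` and the maps `R e`.
-/

namespace Pool.Agent.SeqK

open MeasureTheory Topology Filter

/-! ### the blocks and the ideal -/

/-- `N_k` -/
def NN (k : ℕ) : ℕ := k ^ 2 + 1

/-- the block `G_k`: the subsets with `N_k` elements of a set with `2 N_k` elements -/
abbrev Blk (k : ℕ) : Type := {g : Finset (Fin (2 * NN k)) // g.card = NN k}

/-- the countable index set `E` -/
abbrev E : Type := Σ k : ℕ, Blk k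

/-- the level of `e` -/
def lev (e : E) : ℕ := e.1

/-- the ideal `I` on `E` -/
def IsSmall (Z : Set E) : Prop :=
  ∀ j : ℕ, ∃ k0 : ℕ, ∀ k ≥ k0, ∃ T : Finset (Fin (2 * NN k)), T.card * j ≤ NN k ∧
    ∀ g : Blk k, (⟨k, g⟩ : E) ∈ Z → ∃ a ∈ T, a ∈ g.1

/-! ### the coin space, the index set of the cube -/

/-- the base space `M` (as a set): infinite 0-1 matrices -/
abbrev Mt : Type := ℕ → ℕ → Bool

/-- `m` differs from `d` on (the beginning of) each row `i < k` -/
def Good (k : ℕ) (m d : Mt) : Prop := ∀ i < k, ∃ j < i + 2, m i j ≠ d i j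

/-- the index set `Γ = M × I` -/
abbrev Gam : Type := Mt × {Z : Set E // IsSmall Z}

/-- the index set `Θ` of the cube -/
abbrev Th : Type := E ⊕ ((ℕ × ℕ) ⊕ Gam)

/-- the coordinate `x_e` -/
abbrev xc (z : Th → Bool) (e : E) : Bool := z (Sum.inl e)

/-- the matrix `m` -/
abbrev mc (z : Th → Bool) : Mt := fun i j => z (Sum.inr (Sum.inl (i, j)))

/-- the coordinate `A_γ` -/
abbrev ac (z : Th → Bool) (γ : Gam) : Bool := z (Sum.inr (Sum.inr γ))

/-- the closed subset of the cube -/
def KSet : Set (Th → Bool) :=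
  {z | (∀ e e', xc z e = true → xc z e' = true → e = e') ∧
       (∀ e (γ : Gam), xc z e = true → ac z γ = true → e ∉ γ.2.1) ∧
       (∀ k (γ : Gam), ac z γ = true → Good k (mc z) γ.1 ∨ ∃ e, lev e < k ∧ xc z e = true)}

/-- the space `K` -/
abbrev KK : Type := KSet

open Classical in
/-- the map `R_e` of the cube into itself, its values lie in `KSet` -/
noncomputable def Rfun (e : E) (z : Th → Bool) : Th → Bool
  | Sum.inl e' => decide (e' = e)
  | Sum.inr (Sum.inl p) => z (Sum.inr (Sum.inl p))
  | Sum.inr (Sum.inr γ) => z (Sum.inr (Sum.inr γ)) && decide (e ∉ γ.2.1) &&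
      decide (Good (lev e) (mc z) γ.1)

/-! ### coins -/

/-- the fair coin -/
noncomputable def fair : Measure Bool := (2 : ENNReal)⁻¹ • Measure.count

instance : IsProbabilityMeasure fair := by
  constructor
  have h : Measure.count (Set.univ : Set Bool) = 2 := by
    rw [Measure.count_univ, ENat.card_eq_coe_fintype_card, Fintype.card_bool]
    simp
  rw [fair, Measure.smul_apply, h, smul_eq_mul]
  exact ENNReal.inv_mul_cancel (by norm_num) (by norm_num)

/-- independent fair coins indexed by `ι` -/
noncomputable def coins (ι : Type*) : Measure (ι → Bool) := Measure.infinitePi (fun _ : ι => fair)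

instance (ι : Type*) : IsProbabilityMeasure (coins ι) := by
  unfold coins; infer_instance

/-- the sigma-algebra `σ(Δ_K)` on `C(K)` -/
@[reducible] def sigD (K : Type*) [TopologicalSpace K] : MeasurableSpace C(K, ℝ) :=
  ⨆ x : K, MeasurableSpace.comap (fun f : C(K, ℝ) => f x) (borel ℝ)

end Pool.Agent.SeqK
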