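import Mathlib
import Pool.Agent.SeqK.Base

namespace Pool.Agent.SeqK

open MeasureTheory Topology Filter

theorem isSmall_mono {Y Z : Set E} (hZ : IsSmall Z) (h : Y ⊆ Z) : IsSmall Y := by
  intro j
  obtain ⟨k0, hk0⟩ := hZ j
  refine ⟨k0, fun k hk => ?_⟩
  obtain ⟨T, hT, hg⟩ := hk0 k hk
  exact ⟨T, hT, fun g hgY => hg g (h hgY)⟩

theorem isSmall_union {Y Z : Set E} (hY : IsSmall Y) (hZ : IsSmall Z) : IsSmall (Y ∪ Z) := by
  intro j
  obtain ⟨k1, hk1⟩ := hY (2 * j)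
  obtain ⟨k2, hk2⟩ := hZ (2 * j)
  refine ⟨max k1 k2, fun k hk => ?_⟩
  obtain ⟨T1, hT1, hg1⟩ := hk1 k (le_trans (le_max_left _ _) hk)
  obtain ⟨T2, hT2, hg2⟩ := hk2 k (le_trans (le_max_right _ _) hk)
  refine ⟨T1 ∪ T2, ?_, ?_⟩
  · have h1 : (T1 ∪ T2).card ≤ T1.card + T2.card := Finset.card_union_le _ _
    have h2 : (T1 ∪ T2).card * j ≤ (T1.card + T2.card) * j := Nat.mul_le_mul_right _ h1
    nlinarith
  · rintro g (hg | hg)
    · obtain ⟨a, ha, hag⟩ := hg1 g hg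
      exact ⟨a, Finset.mem_union_left _ ha, hag⟩
    · obtain ⟨a, ha, hag⟩ := hg2 g hg
      exact ⟨a, Finset.mem_union_right _ ha, hag⟩

theorem isSmall_finite {Z : Set E} (hZ : Z.Finite) : IsSmall Z := by
  intro j
  obtain ⟨b, hb⟩ := (hZ.image lev).bddAbove
  refine ⟨b + 1, fun k hk => ⟨∅, by simp, fun g hg => ?_⟩⟩
  have h1 : lev (⟨k, g⟩ : E) ≤ b := hb ⟨_, hg, rfl⟩
  have h2 : lev (⟨k, g⟩ : E) = k := rfl
  omega

theorem not_isSmall_univ : ¬ IsSmall (Set.univ : Set E) := by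
  intro h
  obtain ⟨k0, hk0⟩ := h 1
  obtain ⟨T, hT, hg⟩ := hk0 k0 le_rfl
  have h1 : NN k0 ≤ (Tᶜ).card := by
    rw [Finset.card_compl, Fintype.card_fin]
    omega
  obtain ⟨g, hgs, hgc⟩ := Finset.exists_subset_card_eq h1
  obtain ⟨a, haT, hag⟩ := hg ⟨g, hgc⟩ (Set.mem_univ _)
  exact (Finset.mem_compl.mp (hgs hag)) haT

/-- levels below a bound form a finite set -/
theorem idealA_finite_lev_lt (n : ℕ) : {e : E | lev e < n}.Finite := by
  have h : {e : E | lev e < n} ⊆ ⋃ k ∈ Finset.range n, Set.range (fun g : Blk k => (⟨k, g⟩ : E)) := by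
    rintro ⟨k, g⟩ hk
    simp only [Set.mem_iUnion]
    exact ⟨k, Finset.mem_range.mpr hk, g, rfl⟩
  refine Set.Finite.subset ?_ h
  refine Set.Finite.biUnion (Finset.finite_toSet _) fun k _ => Set.finite_range _

theorem idealA_isSmall_iUnion_le (Z : ℕ → Set E) (hZ : ∀ n, IsSmall (Z n)) (n : ℕ) :
    IsSmall {e | ∃ i ≤ n, e ∈ Z i} := by
  induction n with
  | zero =>
    refine isSmall_mono (hZ 0) ?_
    rintro e ⟨i, hi, he⟩
    have : i = 0 := by omega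
    rwa [this] at he
  | succ n ih =>
    refine isSmall_mono (isSmall_union ih (hZ (n + 1))) ?_
    rintro e ⟨i, hi, he⟩
    rcases Nat.lt_or_ge n i with h | h
    · have : i = n + 1 := by omega
      rw [this] at he
      exact Or.inr he
    · exact Or.inl ⟨i, h, he⟩

/-- the ideal is a P-ideal -/
theorem isSmall_pseudo (Z : ℕ → Set E) (hZ : ∀ n, IsSmall (Z n)) :
    ∃ Y : Set E, IsSmall Y ∧ ∀ n, (Z n \ Y).Finite := by
  have h1 : ∀ n, ∃ k0 : ℕ, ∀ k ≥ k0, ∃ T : Finset (Fin (2 * NN k)), T.card * n ≤ NN k ∧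
    ∀ g : Blk k, (⟨k, g⟩ : E) ∈ {e | ∃ i ≤ n, e ∈ Z i} → ∃ a ∈ T, a ∈ g.1 :=
    fun n => idealA_isSmall_iUnion_le Z hZ n n
  choose k0 hk0 using h1
  -- a bound that dominates everything below it
  let κ : ℕ → ℕ := fun n => n + ∑ i ∈ Finset.range (n + 1), k0 i
  have hκk : ∀ n, k0 n ≤ κ n := by
    intro n
    have : k0 n ≤ ∑ i ∈ Finset.range (n + 1), k0 i :=
      Finset.single_le_sum (f := k0) (fun _ _ => Nat.zero_le _)
        (Finset.mem_range.mpr (Nat.lt_succ_self n))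
    change k0 n ≤ n + _
    omega
  have hκn : ∀ n, n ≤ κ n := fun n => Nat.le_add_right _ _
  have hκs : StrictMono κ := by
    refine strictMono_nat_of_lt_succ fun n => ?_
    change n + ∑ i ∈ Finset.range (n + 1), k0 i < (n + 1) + ∑ i ∈ Finset.range (n + 1 + 1), k0 i
    rw [Finset.sum_range_succ _ (n + 1)]
    omega
  refine ⟨{e | ∃ n, κ n ≤ lev e ∧ e ∈ Z n}, ?_, ?_⟩
  · intro j
    refine ⟨κ j, fun k hk => ?_⟩
    -- the largest m with κ m ≤ k
    have hex : ∃ m, j ≤ m ∧ κ m ≤ k ∧ ∀ n, κ n ≤ k → n ≤ m := by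
      refine ⟨Nat.findGreatest (fun m => κ m ≤ k) k, ?_, ?_, ?_⟩
      · exact Nat.le_findGreatest (le_trans (hκn j) hk) hk
      · exact Nat.findGreatest_spec (P := fun m => κ m ≤ k) (le_trans (hκn j) hk) hk
      · intro n hn
        exact Nat.le_findGreatest (le_trans (hκn n) hn) hn
    obtain ⟨m, hjm, hmk, hmax⟩ := hex
    obtain ⟨T, hT, hg⟩ := hk0 m k (le_trans (hκk m) hmk)
    refine ⟨T, le_trans (Nat.mul_le_mul_left _ hjm) hT, fun g hgY => ?_⟩
    obtain ⟨n, hn1, hn2⟩ := hgY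
    exact hg g ⟨n, hmax n hn1, hn2⟩
  · intro n
    refine (idealA_finite_lev_lt (κ n)).subset ?_
    rintro e ⟨he, hne⟩
    by_contra hlt
    exact hne ⟨n, not_lt.mp hlt, he⟩

/-- the ideal is Borel -/
theorem measurableSet_isSmall {X : Type*} [MeasurableSpace X] (x : E → X → ℝ)
    (hx : ∀ e, Measurable (x e)) (r : ℝ) : MeasurableSet {f : X | IsSmall {e | x e f ≤ r}} := by
  have h : {f : X | IsSmall {e | x e f ≤ r}} =
      ⋂ j : ℕ, ⋃ k0 : ℕ, ⋂ k : ℕ, ⋂ _ : k ≥ k0, ⋃ T : Finset (Fin (2 * NN k)),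
        ⋃ _ : T.card * j ≤ NN k, ⋂ g : Blk k, ⋂ _ : ¬ ∃ a ∈ T, a ∈ g.1,
          {f : X | x ⟨k, g⟩ f ≤ r}ᶜ := by
    ext f
    simp only [Set.mem_setOf_eq, Set.mem_iInter, Set.mem_iUnion, Set.mem_compl_iff, IsSmall]
    constructor
    · intro H j
      obtain ⟨k0, hk0⟩ := H j
      refine ⟨k0, fun k hk => ?_⟩
      obtain ⟨T, hT, hg⟩ := hk0 k hk
      exact ⟨T, hT, fun g hng hle => hng (hg g hle)⟩
    · intro H j
      obtain ⟨k0, hk0⟩ := H j
      refine ⟨k0, fun k hk => ?_⟩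
      obtain ⟨T, hT, hg⟩ := hk0 k hk
      exact ⟨T, hT, fun g hle => by_contra fun hng => hg g hng hle⟩
  rw [h]
  refine MeasurableSet.iInter fun j => MeasurableSet.iUnion fun k0 => MeasurableSet.iInter fun k =>
    MeasurableSet.iInter fun _ => MeasurableSet.iUnion fun T => MeasurableSet.iUnion fun _ =>
    MeasurableSet.iInter fun g => MeasurableSet.iInter fun _ => MeasurableSet.compl ?_
  exact measurableSet_le (hx _) measurable_const

end Pool.Agent.SeqK
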