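import Mathlib
import Pool.Agent.SeqK.Base

namespace Pool.Agent.SeqK

open MeasureTheory Topology Filter

/-- one point covers half of the weight -/
theorem idealB_point (k : ℕ) (w : Blk k → ℝ) :
    ∃ a : Fin (2 * NN k), ∑ g : Blk k, (if a ∈ g.1 then 0 else w g) ≤ (1 / 2) * ∑ g : Blk k, w g := by
  have hne : (Finset.univ : Finset (Fin (2 * NN k))).Nonempty := by
    have : 0 < 2 * NN k := by unfold NN; positivity
    exact ⟨⟨0, this⟩, Finset.mem_univ _⟩
  have hsum : ∑ a : Fin (2 * NN k), ∑ g : Blk k, (if a ∈ g.1 then 0 else w g)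
      ≤ ∑ _a : Fin (2 * NN k), (1 / 2) * ∑ g : Blk k, w g := by
    rw [Finset.sum_comm, Finset.sum_const, Finset.card_univ, Fintype.card_fin, nsmul_eq_mul]
    have h : ∀ g : Blk k, ∑ a : Fin (2 * NN k), (if a ∈ g.1 then 0 else w g) = NN k * w g := by
      intro g
      have h1 : ∀ a : Fin (2 * NN k), (if a ∈ g.1 then 0 else w g)
          = (if a ∈ g.1ᶜ then w g else 0) := by
        intro a
        by_cases ha : a ∈ g.1
        · simp [ha]
        · simp [ha]
      rw [Finset.sum_congr rfl fun a _ => h1 a, Finset.sum_ite_mem, Finset.univ_inter,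
        Finset.sum_const, Finset.card_compl, g.2, Fintype.card_fin, nsmul_eq_mul]
      congr 1
      have : 2 * NN k - NN k = NN k := by omega
      rw [this]
    rw [Finset.sum_congr rfl fun g _ => h g, ← Finset.mul_sum]
    apply le_of_eq
    push_cast
    ring
  obtain ⟨a, _, ha⟩ := Finset.exists_le_of_sum_le hne hsum
  exact ⟨a, ha⟩

/-- selection on one block -/
theorem exists_small_cover (k t : ℕ) (w : Blk k → ℝ) (hw : ∀ g, 0 ≤ w g) :
    ∃ T : Finset (Fin (2 * NN k)), T.card ≤ t ∧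
      ∑ g : Blk k, (if ∃ a ∈ T, a ∈ g.1 then 0 else w g) ≤ (1 / 2) ^ t * ∑ g : Blk k, w g := by
  induction t with
  | zero => exact ⟨∅, by simp, by simp⟩
  | succ t ih =>
    obtain ⟨T, hT, hT'⟩ := ih
    obtain ⟨a, ha⟩ := idealB_point k (fun g => if ∃ a ∈ T, a ∈ g.1 then 0 else w g)
    refine ⟨insert a T, (Finset.card_insert_le a T).trans (by omega), ?_⟩
    have h1 : ∑ g : Blk k, (if ∃ b ∈ insert a T, b ∈ g.1 then 0 else w g)
        ≤ ∑ g : Blk k, (if a ∈ g.1 then 0 else (if ∃ a ∈ T, a ∈ g.1 then 0 else w g)) := by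
      apply Finset.sum_le_sum
      intro g _
      by_cases h2 : a ∈ g.1
      · have h3 : ∃ b ∈ insert a T, b ∈ g.1 := ⟨a, Finset.mem_insert_self _ _, h2⟩
        simp [h2]
      · by_cases h4 : ∃ a ∈ T, a ∈ g.1
        · have h3 : ∃ b ∈ insert a T, b ∈ g.1 := by
            obtain ⟨b, hb, hb'⟩ := h4
            exact ⟨b, Finset.mem_insert_of_mem hb, hb'⟩
          rw [if_pos h3, if_neg h2, if_pos h4]
        · rw [if_neg h2, if_neg h4]
          split_ifs
          · exact hw g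
          · exact le_rfl
    refine h1.trans (ha.trans ?_)
    rw [pow_succ]
    nlinarith

/-- the ideal is pathological -/
theorem exists_small_subseq (τ : ℕ → E → ℝ) (h0 : ∀ n e, 0 ≤ τ n e) (hs : ∀ n, Summable (τ n))
    (h1 : ∀ n, ∑' e, τ n e ≤ 1) (hz : ∀ e, Tendsto (fun n => τ n e) atTop (𝓝 0)) :
    ∃ Z : Set E, IsSmall Z ∧ ∃ φ : ℕ → ℕ, StrictMono φ ∧
      Tendsto (fun n => ∑' e, Set.indicator Zᶜ (τ (φ n)) e) atTop (𝓝 0) := by
  -- the subsequence
  have hev : ∀ i : ℕ, ∀ᶠ n in atTop,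
      ∑ k ∈ Finset.range i, ∑ g : Blk k, τ n ⟨k, g⟩ ≤ (1 / 2) ^ i := by
    intro i
    have ht : Tendsto (fun n => ∑ k ∈ Finset.range i, ∑ g : Blk k, τ n ⟨k, g⟩) atTop (𝓝 0) := by
      have := tendsto_finsetSum (Finset.range i) (fun k (_ : k ∈ Finset.range i) =>
        tendsto_finsetSum (Finset.univ : Finset (Blk k)) (fun g _ => hz ⟨k, g⟩))
      simpa using this
    exact ht.eventually_le_const (by positivity)
  obtain ⟨φ, hφ, hφ'⟩ := extraction_forall_of_eventually hev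
  -- level sums
  have hlev : ∀ n j, ∑ g : Blk j, τ n ⟨j, g⟩ ≤ 1 := by
    intro n j
    refine le_trans ?_ (h1 n)
    have h2 : Summable (fun k : ℕ => ∑' g : Blk k, τ n ⟨k, g⟩) := (hs n).sigma
    have h3 : ∑' g : Blk j, τ n ⟨j, g⟩ ≤ ∑' k : ℕ, ∑' g : Blk k, τ n ⟨k, g⟩ :=
      h2.le_tsum j (fun k _ => tsum_nonneg fun g => h0 n _)
    rw [(hs n).tsum_sigma]
    rwa [tsum_fintype] at h3
  choose T hT hT' using fun j : ℕ => exists_small_cover j j
    (fun g => ∑ i ∈ Finset.range (j + 1), τ (φ i) ⟨j, g⟩)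
    (fun g => Finset.sum_nonneg fun i _ => h0 _ _)
  have hb : ∀ j : ℕ, ∑ g : Blk j, ∑ i ∈ Finset.range (j + 1), τ (φ i) ⟨j, g⟩ ≤ (j : ℝ) + 1 := by
    intro j
    rw [Finset.sum_comm]
    calc ∑ i ∈ Finset.range (j + 1), ∑ g : Blk j, τ (φ i) ⟨j, g⟩
        ≤ ∑ _i ∈ Finset.range (j + 1), (1 : ℝ) := Finset.sum_le_sum fun i _ => hlev _ _
      _ = (j : ℝ) + 1 := by simp
  refine ⟨{e | ∃ a ∈ T e.1, a ∈ e.2.1}, ?_, φ, hφ, ?_⟩
  · intro l
    refine ⟨l, fun k hk => ⟨T k, ?_, fun g hg => hg⟩⟩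
    have h2 := hT k
    have h3 : (T k).card * l ≤ k * k := Nat.mul_le_mul h2 hk
    have h4 : NN k = k * k + 1 := by unfold NN; ring
    exact h3.trans (by rw [h4]; exact Nat.le_succ _)
  · set Z : Set E := {e | ∃ a ∈ T e.1, a ∈ e.2.1} with hZ
    have hbs : Summable (fun k : ℕ => ((k : ℝ) + 1) * (1 / 2) ^ k) := by
      have h2 : Summable (fun k : ℕ => (k : ℝ) * (1 / 2) ^ k) := by
        have := summable_pow_mul_geometric_of_norm_lt_one 1 (r := (1 / 2 : ℝ)) (by norm_num)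
        simpa using this
      have h3 : Summable (fun k : ℕ => (1 / 2 : ℝ) ^ k) :=
        summable_geometric_of_lt_one (by norm_num) (by norm_num)
      refine (h2.add h3).congr fun k => ?_
      ring
    have hup : ∀ i : ℕ, ∑' e, Set.indicator Zᶜ (τ (φ i)) e
        ≤ (1 / 2) ^ i + ∑' k : ℕ, (((k + i : ℕ) : ℝ) + 1) * (1 / 2) ^ (k + i) := by
      intro i
      have hsi : Summable (Set.indicator Zᶜ (τ (φ i))) := (hs (φ i)).indicator _
      have hsk : Summable (fun k : ℕ => ∑' g : Blk k, Set.indicator Zᶜ (τ (φ i)) ⟨k, g⟩) :=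
        hsi.sigma
      rw [hsi.tsum_sigma, ← hsk.sum_add_tsum_nat_add i]
      refine add_le_add ?_ ?_
      · refine le_trans (Finset.sum_le_sum fun k _ => ?_) (hφ' i)
        rw [tsum_fintype]
        exact Finset.sum_le_sum fun g _ => Set.indicator_le_self' (fun _ _ => h0 _ _) _
      · refine Summable.tsum_le_tsum (fun k => ?_) ((summable_nat_add_iff i).2 hsk)
          ((summable_nat_add_iff i).2 hbs)
        rw [tsum_fintype]
        have h2 : ∑ g : Blk (k + i), Set.indicator Zᶜ (τ (φ i)) ⟨k + i, g⟩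
            ≤ ∑ g : Blk (k + i), (if ∃ a ∈ T (k + i), a ∈ g.1 then 0 else
              ∑ i' ∈ Finset.range (k + i + 1), τ (φ i') ⟨k + i, g⟩) := by
          apply Finset.sum_le_sum
          intro g _
          by_cases h3 : ∃ a ∈ T (k + i), a ∈ g.1
          · have h4 : (⟨k + i, g⟩ : E) ∉ Zᶜ := fun h => h h3
            rw [if_pos h3, Set.indicator_of_notMem h4]
          · have h4 : (⟨k + i, g⟩ : E) ∈ Zᶜ := h3
            rw [if_neg h3, Set.indicator_of_mem h4]
            exact Finset.single_le_sum (f := fun i' => τ (φ i') ⟨k + i, g⟩)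
              (fun _ _ => h0 _ _) (Finset.mem_range.2 (by omega))
        refine h2.trans ((hT' (k + i)).trans ?_)
        rw [mul_comm]
        have h5 := hb (k + i)
        exact mul_le_mul_of_nonneg_right h5 (by positivity)
    have hlim : Tendsto (fun i : ℕ => (1 / 2 : ℝ) ^ i +
        ∑' k : ℕ, (((k + i : ℕ) : ℝ) + 1) * (1 / 2) ^ (k + i)) atTop (𝓝 0) := by
      have h2 : Tendsto (fun i : ℕ => (1 / 2 : ℝ) ^ i) atTop (𝓝 0) :=
        tendsto_pow_atTop_nhds_zero_of_lt_one (by norm_num) (by norm_num)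
      have h3 := tendsto_sum_nat_add (fun k : ℕ => ((k : ℝ) + 1) * (1 / 2) ^ k)
      simpa using h2.add h3
    refine squeeze_zero (fun i => tsum_nonneg fun e => ?_) hup hlim
    exact Set.indicator_nonneg (fun _ _ => h0 _ _) _

end Pool.Agent.SeqK
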