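import Mathlib
import Pool.Agent.SeqK.Base

namespace Pool.Agent.SeqK

open MeasureTheory Topology Filter

/-- a continuous function on a closed subset of a cube is determined up to `ε` by finitely many
coordinates -/
theorem cont_dep {Θ : Type*} (S : Set (Θ → Bool)) (hS : IsClosed S) (f : C(S, ℝ)) {ε : ℝ}
    (hε : 0 < ε) : ∃ G : Finset Θ, ∀ z z' : S, (∀ θ ∈ G, z.1 θ = z'.1 θ) → |f z - f z'| < ε := by
  classical
  have : CompactSpace S := isCompact_iff_compactSpace.mp hS.isCompact
  have h1 : ∀ z : S, ∃ G : Finset Θ, ∀ y : S, (∀ θ ∈ G, y.1 θ = z.1 θ) → |f y - f z| < ε / 2 := by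
    intro z
    have h2 : {y : S | |f y - f z| < ε / 2} ∈ 𝓝 z := by
      have h3 : Tendsto (fun y : S => |f y - f z|) (𝓝 z) (𝓝 |f z - f z|) := by
        exact ((f.continuous.sub continuous_const).abs).tendsto z
      rw [sub_self, abs_zero] at h3
      exact h3 (Iio_mem_nhds (by positivity))
    rw [nhds_subtype, mem_comap] at h2
    obtain ⟨t, ht, hts⟩ := h2
    rw [nhds_pi, Filter.mem_pi] at ht
    obtain ⟨I, hI, u, hu, hIu⟩ := ht
    refine ⟨hI.toFinset, fun y hy => ?_⟩
    have h4 : y ∈ Subtype.val ⁻¹' t := by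
      refine hIu fun θ hθ => ?_
      rw [hy θ (hI.mem_toFinset.mpr hθ)]
      exact mem_of_mem_nhds (hu θ)
    exact hts h4
  choose G hG using h1
  have h5 : ∀ z : S, {y : S | ∀ θ ∈ G z, y.1 θ = z.1 θ} ∈ 𝓝 z := by
    intro z
    have h6 : {y : S | ∀ θ ∈ G z, y.1 θ = z.1 θ} = ⋂ θ ∈ G z, {y : S | y.1 θ = z.1 θ} := by
      ext y; simp
    rw [h6, Filter.biInter_finset_mem]
    intro θ _
    have h7 : Continuous (fun y : S => y.1 θ) := (continuous_apply θ).comp continuous_subtype_val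
    have h8 : IsOpen {y : S | y.1 θ = z.1 θ} := (isOpen_discrete {z.1 θ}).preimage h7
    exact h8.mem_nhds rfl
  obtain ⟨t, ht⟩ := CompactSpace.elim_nhds_subcover _ h5
  refine ⟨t.biUnion G, fun z z' hzz' => ?_⟩
  have h9 : z ∈ ⋃ x ∈ t, {y : S | ∀ θ ∈ G x, y.1 θ = x.1 θ} := by rw [ht]; trivial
  simp only [Set.mem_iUnion, Set.mem_ofPred_eq, exists_prop] at h9
  obtain ⟨w, hwt, hw⟩ := h9
  have h10 : |f z - f w| < ε / 2 := hG w z hw
  have h11 : |f z' - f w| < ε / 2 := by
    refine hG w z' fun θ hθ => ?_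
    rw [← hzz' θ (Finset.mem_biUnion.mpr ⟨w, hwt, hθ⟩)]
    exact hw θ hθ
  rw [abs_lt] at *
  constructor <;> linarith [h10.1, h10.2, h11.1, h11.2]

/-- continuous functions on the whole cube -/
lemma cube_dep {Θ : Type*} (h : (Θ → Bool) → ℝ) (hh : Continuous h) {ε : ℝ} (hε : 0 < ε) :
    ∃ G : Finset Θ, ∀ z z' : Θ → Bool, (∀ θ ∈ G, z θ = z' θ) → |h z - h z'| < ε := by
  obtain ⟨G, hG⟩ := cont_dep (Set.univ : Set (Θ → Bool)) isClosed_univ
    ⟨fun z => h z.1, hh.comp continuous_subtype_val⟩ hε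
  exact ⟨G, fun z z' hzz' => hG ⟨z, trivial⟩ ⟨z', trivial⟩ hzz'⟩

open Classical in
/-- extension by `false` -/
noncomputable def cube_ext {Θ : Type*} (G : Finset Θ) (b : G → Bool) : Θ → Bool :=
  fun θ => if h : θ ∈ G then b ⟨θ, h⟩ else false

lemma cube_ext_mem {Θ : Type*} (G : Finset Θ) (b : G → Bool) {θ : Θ} (h : θ ∈ G) :
    cube_ext G b θ = b ⟨θ, h⟩ := by
  simp [cube_ext, h]

lemma cube_res_meas {Θ : Type*} (G : Finset Θ) (F : (G → Bool) → ℝ) :
    Measurable (fun z : Θ → Bool => F (fun θ : G => z θ)) := by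
  have h1 : Measurable (fun z : Θ → Bool => (fun θ : G => z θ)) := by
    rw [measurable_pi_iff]
    intro θ
    exact measurable_pi_apply _
  have h2 : Measurable F := Measurable.of_discrete
  exact h2.comp h1

/-- a continuous function on a cube is measurable for the product sigma-algebra -/
theorem cont_measurable {Θ : Type*} (h : (Θ → Bool) → ℝ) (hh : Continuous h) : Measurable h := by
  have h1 : ∀ n : ℕ, ∃ G : Finset Θ, ∀ z z' : Θ → Bool, (∀ θ ∈ G, z θ = z' θ) →
      |h z - h z'| < 1 / ((n : ℝ) + 1) := fun n => cube_dep h hh (by positivity)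
  choose G hG using h1
  refine measurable_of_tendsto_metrizable
    (f := fun (n : ℕ) (z : Θ → Bool) => h (cube_ext (G n) (fun θ => z θ)))
    (fun n => cube_res_meas (G n) (fun b => h (cube_ext (G n) b))) ?_
  rw [tendsto_pi_nhds]
  intro z
  rw [tendsto_iff_dist_tendsto_zero]
  refine squeeze_zero (fun _ => dist_nonneg) (fun n => ?_) tendsto_one_div_add_atTop_nhds_zero_nat
  rw [Real.dist_eq]
  exact (hG n _ _ fun θ hθ => cube_ext_mem (G n) _ hθ).le

open Classical in
lemma cube_sum {Θ : Type*} (G : Finset Θ) (F : (G → Bool) → ℝ) (y : Θ → Bool) :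
    F (fun θ : G => y θ) = ∑ b : G → Bool, F b *
      Set.indicator {y : Θ → Bool | ∀ θ ∈ G, y θ = cube_ext G b θ} (fun _ => (1 : ℝ)) y := by
  rw [Finset.sum_eq_single (fun θ : G => y θ)]
  · rw [Set.indicator_of_mem, mul_one]
    intro θ hθ
    rw [cube_ext_mem G _ hθ]
  · intro b _ hb
    rw [Set.indicator_of_notMem, mul_zero]
    intro hy
    apply hb
    funext θ
    have := hy θ.1 θ.2
    rw [cube_ext_mem G b θ.2] at this
    exact this.symm
  · intro h; exact absurd (Finset.mem_univ _) h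

lemma cube_cyl_meas {Θ : Type*} (G : Finset Θ) (b : Θ → Bool) :
    MeasurableSet {y : Θ → Bool | ∀ θ ∈ G, y θ = b θ} := by
  have h1 : {y : Θ → Bool | ∀ θ ∈ G, y θ = b θ} = ⋂ θ ∈ G, {y : Θ → Bool | y θ = b θ} := by
    ext y; simp
  rw [h1]
  refine Finset.measurableSet_biInter _ fun θ _ => ?_
  have h2 : Measurable (fun y : Θ → Bool => y θ) := measurable_pi_apply θ
  exact h2 (MeasurableSet.of_discrete (s := {c : Bool | c = b θ}))

/-- convergence on finite sets of coordinates implies convergence of integrals -/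
theorem tendsto_integral_of_model (Θ : Type) (ν : Measure (Θ → Bool)) [IsProbabilityMeasure ν]
    (x : ∀ n : ℕ, ((Fin n → Bool) → Bool) → Θ → Bool)
    (hx : ∀ (G : Finset Θ) (b : Θ → Bool),
      Tendsto (fun n => (Nat.card {φ : (Fin n → Bool) → Bool // ∀ θ ∈ G, x n φ θ = b θ} : ℝ) /
        (Nat.card ((Fin n → Bool) → Bool) : ℝ)) atTop (𝓝 (ν.real {y | ∀ θ ∈ G, y θ = b θ})))
    (h : (Θ → Bool) → ℝ) (hh : Continuous h) :
    Tendsto (fun n => (∑ φ : (Fin n → Bool) → Bool, h (x n φ)) /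
      (Nat.card ((Fin n → Bool) → Bool) : ℝ)) atTop (𝓝 (∫ y, h y ∂ν)) := by
  classical
  rw [Metric.tendsto_atTop]
  intro ε hε
  obtain ⟨G, hG⟩ := cube_dep h hh (show 0 < ε / 4 by positivity)
  set F : (G → Bool) → ℝ := fun b => h (cube_ext G b) with hF
  have happ : ∀ y : Θ → Bool, |h y - F (fun θ : G => y θ)| < ε / 4 := fun y =>
    hG _ _ fun θ hθ => (cube_ext_mem G (fun θ : G => y θ) hθ).symm
  have hcard : ∀ n : ℕ, (0 : ℝ) < (Nat.card ((Fin n → Bool) → Bool) : ℝ) := by
    intro n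
    exact_mod_cast Nat.card_pos
  -- the averages of the simplified function
  have hav : ∀ n : ℕ, (∑ φ : (Fin n → Bool) → Bool, F (fun θ : G => x n φ θ)) /
      (Nat.card ((Fin n → Bool) → Bool) : ℝ) = ∑ b : G → Bool, F b *
        ((Nat.card {φ : (Fin n → Bool) → Bool // ∀ θ ∈ G, x n φ θ = cube_ext G b θ} : ℝ) /
        (Nat.card ((Fin n → Bool) → Bool) : ℝ)) := by
    intro n
    rw [Finset.sum_congr rfl fun φ _ => cube_sum G F (x n φ), Finset.sum_comm, Finset.sum_div]
    refine Finset.sum_congr rfl fun b _ => ?_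
    rw [← Finset.mul_sum, mul_div_assoc]
    congr 2
    rw [Nat.card_eq_fintype_card, Fintype.card_subtype, Finset.card_filter]
    push_cast
    refine Finset.sum_congr rfl fun φ _ => ?_
    rw [Set.indicator_apply]
    rfl
  have hlim : Tendsto (fun n => (∑ φ : (Fin n → Bool) → Bool, F (fun θ : G => x n φ θ)) /
      (Nat.card ((Fin n → Bool) → Bool) : ℝ)) atTop
      (𝓝 (∑ b : G → Bool, F b * ν.real {y | ∀ θ ∈ G, y θ = cube_ext G b θ})) := by
    simp only [hav]
    exact tendsto_finsetSum _ fun b _ => (hx G (cube_ext G b)).const_mul _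
  have hint : ∫ y, F (fun θ : G => y θ) ∂ν
      = ∑ b : G → Bool, F b * ν.real {y | ∀ θ ∈ G, y θ = cube_ext G b θ} := by
    rw [integral_congr_ae (Eventually.of_forall fun y => cube_sum G F y),
      integral_finsetSum _ fun b _ => ?_]
    · refine Finset.sum_congr rfl fun b _ => ?_
      rw [integral_const_mul, integral_indicator_const _ (cube_cyl_meas G _), smul_eq_mul, mul_one]
    · exact ((integrable_const (1 : ℝ)).indicator (cube_cyl_meas G _)).const_mul _
  rw [← hint, Metric.tendsto_atTop] at hlim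
  obtain ⟨N, hN⟩ := hlim (ε / 4) (by positivity)
  refine ⟨N, fun n hn => ?_⟩
  have h1 := hN n hn
  rw [Real.dist_eq] at h1 ⊢
  -- comparison of averages
  have h2 : |(∑ φ : (Fin n → Bool) → Bool, h (x n φ)) / (Nat.card ((Fin n → Bool) → Bool) : ℝ)
      - (∑ φ : (Fin n → Bool) → Bool, F (fun θ : G => x n φ θ)) /
      (Nat.card ((Fin n → Bool) → Bool) : ℝ)| ≤ ε / 4 := by
    rw [← sub_div, ← Finset.sum_sub_distrib, abs_div, abs_of_pos (hcard n), div_le_iff₀ (hcard n)]
    refine (Finset.abs_sum_le_sum_abs _ _).trans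
      ((Finset.sum_le_sum fun φ _ => (happ (x n φ)).le).trans (le_of_eq ?_))
    rw [Finset.sum_const, Nat.card_eq_fintype_card, nsmul_eq_mul, mul_comm, Finset.card_univ]
  -- comparison of integrals
  have hbF : Integrable (fun y : Θ → Bool => F (fun θ : G => y θ)) ν := by
    refine Integrable.of_bound (cube_res_meas G F).aestronglyMeasurable
      (∑ b : G → Bool, |F b|) (Eventually.of_forall fun y => ?_)
    rw [Real.norm_eq_abs]
    exact Finset.single_le_sum (f := fun b => |F b|) (fun _ _ => abs_nonneg _) (Finset.mem_univ _)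
  have hbh : Integrable h ν := by
    refine Integrable.of_bound (cont_measurable h hh).aestronglyMeasurable
      ((∑ b : G → Bool, |F b|) + ε / 4) (Eventually.of_forall fun y => ?_)
    rw [Real.norm_eq_abs]
    have h3 : |F (fun θ : G => y θ)| ≤ ∑ b : G → Bool, |F b| :=
      Finset.single_le_sum (f := fun b => |F b|) (fun _ _ => abs_nonneg _) (Finset.mem_univ _)
    have h4 := (happ y).le
    have h5 : |h y| ≤ |F (fun θ : G => y θ)| + |h y - F (fun θ : G => y θ)| := by
      calc |h y| = |F (fun θ : G => y θ) + (h y - F (fun θ : G => y θ))| := by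
            congr 1; ring
        _ ≤ _ := abs_add_le _ _
    linarith
  have h6 : |∫ y, F (fun θ : G => y θ) ∂ν - ∫ y, h y ∂ν| ≤ ε / 4 := by
    rw [← integral_sub hbF hbh, ← Real.norm_eq_abs]
    refine (norm_integral_le_of_norm_le_const (C := ε / 4)
      (Eventually.of_forall fun y => ?_)).trans (le_of_eq (by simp))
    rw [Real.norm_eq_abs, abs_sub_comm]
    exact (happ y).le
  rw [abs_le] at h2 h6
  rw [abs_lt] at h1 ⊢
  constructor <;> linarith [h1.1, h1.2, h2.1, h2.2, h6.1, h6.2]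

end Pool.Agent.SeqK
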