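import Mathlib
import Pool.Agent.SeqK.Base
import Pool.Agent.SeqK.IdealA
import Pool.Agent.SeqK.CubeCont

namespace Pool.Agent.SeqK

open MeasureTheory Topology Filter

/-- a function of finitely many coordinates is continuous -/
theorem space_cont {Θ : Type*} (G : Set Θ) (hG : G.Finite) (h : (Θ → Bool) → Bool)
    (hh : ∀ z z' : Θ → Bool, (∀ θ ∈ G, z θ = z' θ) → h z = h z') : Continuous h := by
  classical
  have : Finite G := hG
  let g : (G → Bool) → Bool := fun b => h (fun θ => if hθ : θ ∈ G then b ⟨θ, hθ⟩ else false)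
  have e : h = g ∘ (fun z (θ : G) => z θ.1) := by
    funext z
    apply hh
    intro θ hθ
    rw [dif_pos hθ]
  rw [e]
  have h1 : Continuous g := continuous_of_discreteTopology
  exact h1.comp (continuous_pi fun θ => continuous_apply θ.1)

/-- a condition on finitely many coordinates is closed -/
theorem space_closed {Θ : Type*} (G : Set Θ) (hG : G.Finite) (P : (Θ → Bool) → Prop)
    (hh : ∀ z z' : Θ → Bool, (∀ θ ∈ G, z θ = z' θ) → (P z ↔ P z')) : IsClosed {z | P z} := by
  classical
  have h1 : Continuous (fun z : Θ → Bool => decide (P z)) := by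
    apply space_cont G hG
    intro z z' hz
    exact decide_eq_decide.2 (hh z z' hz)
  have h2 : {z : Θ → Bool | P z} = (fun z : Θ → Bool => decide (P z)) ⁻¹' {true} := by
    ext z
    simp
  rw [h2]
  exact (isClosed_discrete _).preimage h1

theorem space_lev_finite (k : ℕ) : {e : E | lev e < k}.Finite := by
  have h : {e : E | lev e < k} ⊆
      (((Finset.range k).sigma (fun _ => Finset.univ) : Finset E) : Set E) := by
    intro e he
    rw [Finset.mem_coe, Finset.mem_sigma]
    exact ⟨Finset.mem_range.2 he, Finset.mem_univ _⟩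
  exact (Finset.finite_toSet _).subset h

/-- the coordinates of the matrix that are relevant for `Good k` -/
def spaceRel (k : ℕ) : Set Th := (fun p : ℕ × ℕ => (Sum.inr (Sum.inl p) : Th)) ''
  ((Finset.range k ×ˢ Finset.range (k + 2) : Finset (ℕ × ℕ)) : Set (ℕ × ℕ))

theorem spaceRel_finite (k : ℕ) : (spaceRel k).Finite := (Finset.finite_toSet _).image _

theorem space_good_congr (k : ℕ) {z z' : Th → Bool} (h : ∀ θ ∈ spaceRel k, z θ = z' θ) (d : Mt) :
    Good k (mc z) d ↔ Good k (mc z') d := by
  have h1 : ∀ i < k, ∀ j < i + 2, mc z i j = mc z' i j := by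
    intro i hi j hj
    apply h
    refine ⟨(i, j), ?_, rfl⟩
    rw [Finset.mem_coe, Finset.mem_product]
    exact ⟨Finset.mem_range.2 hi, Finset.mem_range.2 (by show j < k + 2; omega)⟩
  constructor
  · intro hg i hi
    obtain ⟨j, hj, hne⟩ := hg i hi
    exact ⟨j, hj, by rw [← h1 i hi j hj]; exact hne⟩
  · intro hg i hi
    obtain ⟨j, hj, hne⟩ := hg i hi
    exact ⟨j, hj, by rw [h1 i hi j hj]; exact hne⟩

theorem isClosed_KSet : IsClosed KSet := by
  have h1 : IsClosed {z : Th → Bool | ∀ e e', xc z e = true → xc z e' = true → e = e'} := by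
    simp only [Set.ofPred_forall]
    refine isClosed_iInter fun e => isClosed_iInter fun e' => ?_
    have h := space_closed ({Sum.inl e, Sum.inl e'} : Set Th) (Set.toFinite _)
      (fun z => xc z e = true → xc z e' = true → e = e') (by
        intro z z' hz
        have a := hz (Sum.inl e) (by simp)
        have b := hz (Sum.inl e') (by simp)
        simp only [xc, a, b])
    simpa only [Set.ofPred_forall] using h
  have h2 : IsClosed {z : Th → Bool |
      ∀ e (γ : Gam), xc z e = true → ac z γ = true → e ∉ γ.2.1} := by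
    simp only [Set.ofPred_forall]
    refine isClosed_iInter fun e => isClosed_iInter fun γ => ?_
    have h := space_closed ({Sum.inl e, Sum.inr (Sum.inr γ)} : Set Th) (Set.toFinite _)
      (fun z => xc z e = true → ac z γ = true → e ∉ γ.2.1) (by
        intro z z' hz
        have a := hz (Sum.inl e) (by simp)
        have b := hz (Sum.inr (Sum.inr γ)) (by simp)
        simp only [xc, ac, a, b])
    simpa only [Set.ofPred_forall] using h
  have h3 : IsClosed {z : Th → Bool | ∀ k (γ : Gam), ac z γ = true →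
      Good k (mc z) γ.1 ∨ ∃ e, lev e < k ∧ xc z e = true} := by
    simp only [Set.ofPred_forall]
    refine isClosed_iInter fun k => isClosed_iInter fun γ => ?_
    have h := space_closed
      ({Sum.inr (Sum.inr γ)} ∪ (spaceRel k ∪ Sum.inl '' {e : E | lev e < k}) : Set Th)
      ((Set.finite_singleton _).union ((spaceRel_finite k).union ((space_lev_finite k).image _)))
      (fun z => ac z γ = true → Good k (mc z) γ.1 ∨ ∃ e, lev e < k ∧ xc z e = true) (by
        intro z z' hz
        have a := hz (Sum.inr (Sum.inr γ)) (by simp)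
        have b := space_good_congr k (z := z) (z' := z')
          (fun θ hθ => hz θ (Or.inr (Or.inl hθ))) γ.1
        have c : (∃ e, lev e < k ∧ xc z e = true) ↔ ∃ e, lev e < k ∧ xc z' e = true := by
          constructor
          · rintro ⟨e, he, hx⟩
            have d := hz (Sum.inl e) (Or.inr (Or.inr ⟨e, he, rfl⟩))
            exact ⟨e, he, by rw [xc, ← d]; exact hx⟩
          · rintro ⟨e, he, hx⟩
            have d := hz (Sum.inl e) (Or.inr (Or.inr ⟨e, he, rfl⟩))
            exact ⟨e, he, by rw [xc, d]; exact hx⟩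
        rw [b, c]
        simp only [ac, a])
    simpa only [Set.ofPred_forall] using h
  have h4 := h1.inter (h2.inter h3)
  exact h4

instance : CompactSpace KK := isCompact_iff_compactSpace.mp isClosed_KSet.isCompact

theorem space_good_mono {k l : ℕ} (h : k ≤ l) {m d : Mt} (hg : Good l m d) : Good k m d :=
  fun i hi => hg i (lt_of_lt_of_le hi h)

theorem space_Rfun_inl (e e' : E) (z : Th → Bool) :
    Rfun e z (Sum.inl e') = true ↔ e' = e := by
  simp [Rfun]

theorem space_Rfun_ac (e : E) (z : Th → Bool) (γ : Gam) :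
    Rfun e z (Sum.inr (Sum.inr γ)) = true ↔
      z (Sum.inr (Sum.inr γ)) = true ∧ e ∉ γ.2.1 ∧ Good (lev e) (mc z) γ.1 := by
  simp [Rfun, and_assoc]

theorem Rfun_mem (e : E) (z : Th → Bool) : Rfun e z ∈ KSet := by
  refine ⟨?_, ?_, ?_⟩
  · intro e1 e2 h1 h2
    rw [xc, space_Rfun_inl] at h1 h2
    rw [h1, h2]
  · intro e1 γ h1 h2
    rw [xc, space_Rfun_inl] at h1
    rw [ac, space_Rfun_ac] at h2
    rw [h1]
    exact h2.2.1
  · intro k γ h
    rw [ac, space_Rfun_ac] at h
    by_cases hk : lev e < k
    · exact Or.inr ⟨e, hk, (space_Rfun_inl e e z).2 rfl⟩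
    · exact Or.inl (space_good_mono (not_lt.1 hk) h.2.2)

theorem continuous_Rfun (e : E) : Continuous (Rfun e) := by
  classical
  apply continuous_pi
  rintro (e' | p | γ)
  · exact continuous_const
  · exact continuous_apply (Sum.inr (Sum.inl p) : Th)
  · apply space_cont ({Sum.inr (Sum.inr γ)} ∪ spaceRel (lev e) : Set Th)
      ((Set.finite_singleton _).union (spaceRel_finite _))
    intro z z' hz
    have a := hz (Sum.inr (Sum.inr γ)) (by simp)
    have b := space_good_congr (lev e) (z := z) (z' := z')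
      (fun θ hθ => hz θ (Or.inr hθ)) γ.1
    rw [Bool.eq_iff_iff, space_Rfun_ac, space_Rfun_ac, a, b]

/-- the map `R_e` from the cube to `K` -/
noncomputable def R (e : E) (z : Th → Bool) : KK := ⟨Rfun e z, Rfun_mem e z⟩

theorem continuous_R (e : E) : Continuous (R e) := (continuous_Rfun e).subtype_mk _

theorem R_eq_self (e : E) (z : KK) (h : xc z.1 e = true) : R e z.1 = z := by
  obtain ⟨z, hz1, hz2, hz3⟩ := z
  apply Subtype.ext
  funext θ
  rcases θ with e' | p | γ
  · show Rfun e z (Sum.inl e') = z (Sum.inl e')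
    rw [Bool.eq_iff_iff, space_Rfun_inl]
    constructor
    · rintro rfl
      exact h
    · intro h'
      exact hz1 e' e h' h
  · rfl
  · show Rfun e z (Sum.inr (Sum.inr γ)) = z (Sum.inr (Sum.inr γ))
    rw [Bool.eq_iff_iff, space_Rfun_ac]
    constructor
    · exact fun h' => h'.1
    · intro h'
      refine ⟨h', hz2 e γ h h', ?_⟩
      rcases hz3 (lev e) γ h' with h'' | ⟨e', he', hx⟩
      · exact h''
      · exfalso
        have := hz1 e' e hx h
        rw [this] at he'
        exact lt_irrefl _ he'

theorem space_small_finset {Θ : Type*} (P : Θ → E → Prop) (hP : ∀ θ, IsSmall {e | P θ e})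
    (G : Finset Θ) : IsSmall {e | ∃ θ ∈ G, P θ e} := by
  classical
  induction G using Finset.induction_on with
  | empty =>
    apply isSmall_mono (isSmall_finite Set.finite_empty)
    rintro e ⟨θ, hθ, -⟩
    simp at hθ
  | insert a s ha ih =>
    apply isSmall_mono (isSmall_union (hP a) ih)
    rintro e ⟨θ, hθ, h⟩
    rcases Finset.mem_insert.1 hθ with rfl | hθ
    · exact Or.inl h
    · exact Or.inr ⟨θ, hθ, h⟩

/-- on `L` the maps `R_e` converge to the identity along the ideal -/
theorem R_approx (f : C(KK, ℝ)) {ε : ℝ} (hε : 0 < ε) :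
    IsSmall {e | ∃ z : KK, (∀ e', xc z.1 e' = false) ∧ ε ≤ |f (R e z.1) - f z|} := by
  obtain ⟨G, hG⟩ := cont_dep KSet isClosed_KSet f hε
  have hsmall := space_small_finset
    (fun (θ : Th) (e : E) => θ = Sum.inl e ∨ ∃ γ : Gam, θ = Sum.inr (Sum.inr γ) ∧ e ∈ γ.2.1) (by
      intro θ
      rcases θ with e' | p | γ
      · apply isSmall_mono (isSmall_finite (Set.finite_singleton e'))
        rintro e (h | ⟨γ, h, -⟩)
        · exact (Sum.inl_injective h).symm
        · exact absurd h (by simp)
      · apply isSmall_mono (isSmall_finite Set.finite_empty)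
        rintro e (h | ⟨γ, h, -⟩)
        · exact absurd h (by simp)
        · exact absurd h (by simp)
      · apply isSmall_mono γ.2.2
        rintro e (h | ⟨γ', h, h'⟩)
        · exact absurd h (by simp)
        · have : γ = γ' := Sum.inr_injective (Sum.inr_injective h)
          rw [this]
          exact h') G
  apply isSmall_mono hsmall
  rintro e ⟨z, hz, hfz⟩
  by_contra hcon
  have hcon' : ∀ θ ∈ G, ¬ (θ = Sum.inl e ∨ ∃ γ : Gam, θ = Sum.inr (Sum.inr γ) ∧ e ∈ γ.2.1) := by
    intro θ hθ h
    exact hcon ⟨θ, hθ, h⟩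
  refine absurd (hG (R e z.1) z ?_) (not_lt.2 hfz)
  intro θ hθ
  have hne := hcon' θ hθ
  rcases θ with e' | p | γ
  · show Rfun e z.1 (Sum.inl e') = z.1 (Sum.inl e')
    rw [Bool.eq_iff_iff, space_Rfun_inl]
    constructor
    · rintro rfl
      exact absurd (Or.inl rfl) hne
    · intro h'
      have := hz e'
      rw [xc, h'] at this
      exact absurd this (by simp)
  · rfl
  · show Rfun e z.1 (Sum.inr (Sum.inr γ)) = z.1 (Sum.inr (Sum.inr γ))
    rw [Bool.eq_iff_iff, space_Rfun_ac]
    constructor
    · exact fun h' => h'.1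
    · intro h'
      refine ⟨h', fun h'' => hne (Or.inr ⟨γ, rfl, h''⟩), ?_⟩
      rcases z.2.2.2 (lev e) γ h' with h'' | ⟨e', he', hx⟩
      · exact h''
      · rw [hz e'] at hx
        exact absurd hx (by simp)

theorem space_mk_nat_bool : Cardinal.mk (ℕ → Bool) = Cardinal.continuum := by
  simp

theorem exists_code : ∃ c : Th → ℕ → Bool, Function.Injective c := by
  have hMt : Cardinal.mk Mt ≤ Cardinal.continuum := by
    rw [← space_mk_nat_bool]
    have e1 : Mt ≃ (ℕ → Bool) :=
      (Equiv.curry ℕ ℕ Bool).symm.trans (Equiv.arrowCongr Nat.pairEquiv (Equiv.refl Bool))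
    exact (Cardinal.mk_congr e1).le
  have hSet : Cardinal.mk {Z : Set E // IsSmall Z} ≤ Cardinal.continuum := by
    have h1 : Cardinal.mk {Z : Set E // IsSmall Z} ≤ Cardinal.mk (Set E) :=
      Cardinal.mk_subtype_le _
    refine h1.trans ?_
    obtain ⟨g, hg⟩ := exists_injective_nat E
    have h2 : Cardinal.mk (Set E) ≤ Cardinal.mk (Set ℕ) :=
      Cardinal.mk_le_of_injective (Set.image_injective.2 hg)
    rwa [Cardinal.mk_set_nat] at h2
  have hGam : Cardinal.mk Gam ≤ Cardinal.continuum := by
    rw [Cardinal.mk_prod, Cardinal.lift_id, Cardinal.lift_id]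
    exact Cardinal.mul_le_of_le Cardinal.aleph0_le_continuum hMt hSet
  have hE : Cardinal.mk E ≤ Cardinal.continuum :=
    (Cardinal.mk_le_aleph0).trans Cardinal.aleph0_le_continuum
  have hNN : Cardinal.mk (ℕ × ℕ) ≤ Cardinal.continuum :=
    (Cardinal.mk_le_aleph0).trans Cardinal.aleph0_le_continuum
  have hTh : Cardinal.mk Th ≤ Cardinal.continuum := by
    rw [Cardinal.mk_sum, Cardinal.mk_sum, Cardinal.lift_id, Cardinal.lift_id, Cardinal.lift_id,
      Cardinal.lift_id]
    exact Cardinal.add_le_of_le Cardinal.aleph0_le_continuum hE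
      (Cardinal.add_le_of_le Cardinal.aleph0_le_continuum hNN hGam)
  rw [← space_mk_nat_bool] at hTh
  obtain ⟨c⟩ := (Cardinal.le_def _ _).1 hTh
  exact ⟨c, c.injective⟩

end Pool.Agent.SeqK
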