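import Mathlib
import Pool.Agent.SeqK.Base
import Pool.Agent.SeqK.IdealA
import Pool.Agent.SeqK.IdealB
import Pool.Agent.SeqK.Space

namespace Pool.Agent.SeqK

open MeasureTheory Topology Filter

/-- the indicator function of `{A_γ = 1}` -/
noncomputable def aF (γ : Gam) : C(KK, ℝ) :=
  ⟨fun z => if ac z.1 γ = true then 1 else 0,
    (continuous_of_discreteTopology (f := fun b : Bool => if b = true then (1 : ℝ) else 0)).comp
      ((continuous_apply (Sum.inr (Sum.inr γ) : Th)).comp continuous_subtype_val)⟩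

/-- the indicator function of `{x_e = 1}` -/
noncomputable def xF (e : E) : C(KK, ℝ) :=
  ⟨fun z => if xc z.1 e = true then 1 else 0,
    (continuous_of_discreteTopology (f := fun b : Bool => if b = true then (1 : ℝ) else 0)).comp
      ((continuous_apply (Sum.inl e : Th)).comp continuous_subtype_val)⟩

/-- `d` kills every point of `P` -/
def Kills (d : Mt) (P : Set Mt) : Prop := ∀ p ∈ P, ∃ i, ∀ j < i + 2, p i j = d i j

/-- the sequentially closed class of states -/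
def ClassC : Set (MK KK) :=
  {ρ | (∀ f : C(KK, ℝ), 0 ≤ f → 0 ≤ ρ f) ∧ ρ 1 = 1 ∧
    ∃ P : Set Mt, P.Countable ∧ ∃ Z0 : Set E, IsSmall Z0 ∧ ∀ d : Mt, Kills d P →
      ∀ Z : {Z : Set E // IsSmall Z}, (Z0 \ Z.1).Finite →
        HasSum (fun e => ρ (aF (d, Z) * xF e)) (ρ (aF (d, Z)))}

theorem exists_kills {P : Set Mt} (hP : P.Countable) : ∃ d : Mt, Kills d P := by
  rcases P.eq_empty_or_nonempty with h | h
  · exact ⟨fun _ _ => false, fun p hp => by rw [h] at hp; exact absurd hp (Set.notMem_empty p)⟩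
  · obtain ⟨p, rfl⟩ := hP.exists_eq_range h
    refine ⟨fun i j => p i i j, ?_⟩
    rintro _ ⟨i, rfl⟩
    exact ⟨i, fun j _ => rfl⟩

lemma ccl_aF_apply (γ : Gam) (z : KK) : aF γ z = if ac z.1 γ = true then 1 else 0 := rfl

lemma ccl_xF_apply (e : E) (z : KK) : xF e z = if xc z.1 e = true then 1 else 0 := rfl

lemma ccl_aF_nonneg (γ : Gam) (z : KK) : 0 ≤ aF γ z := by
  rw [ccl_aF_apply]; split_ifs <;> norm_num

lemma ccl_aF_le (γ : Gam) (z : KK) : aF γ z ≤ 1 := by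
  rw [ccl_aF_apply]; split_ifs <;> norm_num

lemma ccl_xF_nonneg (e : E) (z : KK) : 0 ≤ xF e z := by
  rw [ccl_xF_apply]; split_ifs <;> norm_num

lemma ccl_sum_le (s : Finset E) (z : KK) : ∑ e ∈ s, xF e z ≤ 1 := by
  by_cases h : ∃ e0, xc z.1 e0 = true
  · obtain ⟨e0, h0⟩ := h
    have h1 : ∀ e ∈ s, xF e z ≤ if e = e0 then 1 else 0 := by
      intro e _
      rw [ccl_xF_apply]
      by_cases he : xc z.1 e = true
      · rw [if_pos he, if_pos (z.2.1 e e0 he h0)]
      · rw [if_neg he]; split_ifs <;> norm_num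
    refine (Finset.sum_le_sum h1).trans ?_
    rw [Finset.sum_ite_eq' s e0]
    split_ifs <;> norm_num
  · push Not at h
    have h1 : ∑ e ∈ s, xF e z = 0 := Finset.sum_eq_zero fun e _ => by
      rw [ccl_xF_apply, if_neg (h e)]
    rw [h1]; norm_num

theorem diracs_subset_classC : diracs KK ⊆ ClassC := by
  rintro φ ⟨z, hz⟩
  refine ⟨fun f hf => ?_, ?_, {mc z.1}, Set.countable_singleton _, ∅,
    isSmall_finite Set.finite_empty, ?_⟩
  · rw [hz]; exact hf z
  · rw [hz]; rfl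
  · intro d hd Z _
    simp only [hz]
    by_cases h : ∃ e0, xc z.1 e0 = true
    · obtain ⟨e0, h0⟩ := h
      have h1 : aF (d, Z) z = (aF (d, Z) * xF e0) z := by
        rw [ContinuousMap.mul_apply, ccl_xF_apply, if_pos h0, mul_one]
      rw [h1]
      refine hasSum_single e0 fun e he => ?_
      have h2 : ¬ xc z.1 e = true := fun h3 => he (z.2.1 e e0 h3 h0)
      rw [ContinuousMap.mul_apply, ccl_xF_apply, if_neg h2, mul_zero]
    · push Not at h
      have h1 : ac z.1 (d, Z) ≠ true := by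
        intro h2
        obtain ⟨i, hi⟩ := hd _ rfl
        rcases z.2.2.2 (i + 1) (d, Z) h2 with h3 | ⟨e, _, h3⟩
        · obtain ⟨j, hj, hj2⟩ := h3 i (Nat.lt_succ_self i)
          exact hj2 (hi j hj)
        · exact h e h3
      have h2 : aF (d, Z) z = 0 := by rw [ccl_aF_apply, if_neg h1]
      rw [h2]
      have h3 : (fun e => (aF (d, Z) * xF e) z) = fun _ => (0 : ℝ) := by
        funext e
        rw [ContinuousMap.mul_apply, h2, zero_mul]
      rw [h3]
      exact hasSum_zero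

theorem convex_classC : Convex ℝ ClassC := by
  rintro ρ ⟨hρ, hρ1, P, hP, Z0, hZ0, hs⟩ ρ' ⟨hρ', hρ1', P', hP', Z0', hZ0', hs'⟩ a b ha hb hab
  refine ⟨fun f hf => ?_, ?_, P ∪ P', hP.union hP', Z0 ∪ Z0', isSmall_union hZ0 hZ0', ?_⟩
  · change 0 ≤ a * ρ f + b * ρ' f
    have := hρ f hf
    have := hρ' f hf
    positivity
  · change a * ρ 1 + b * ρ' 1 = 1
    rw [hρ1, hρ1', mul_one, mul_one, hab]
  · intro d hd Z hZ
    have h1 : Kills d P := fun p hp => hd p (Or.inl hp)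
    have h2 : Kills d P' := fun p hp => hd p (Or.inr hp)
    have h3 : (Z0 \ Z.1).Finite := hZ.subset (Set.sdiff_subset_sdiff_left Set.subset_union_left)
    have h4 : (Z0' \ Z.1).Finite := hZ.subset (Set.sdiff_subset_sdiff_left Set.subset_union_right)
    exact ((hs d h1 Z h3).mul_left a).add ((hs' d h2 Z h4).mul_left b)

/-- positive functionals are monotone -/
lemma ccl_mono {ρ : MK KK} (hρ : ∀ f : C(KK, ℝ), 0 ≤ f → 0 ≤ ρ f) {f g : C(KK, ℝ)}
    (h : ∀ z, f z ≤ g z) : ρ f ≤ ρ g := by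
  have h1 : (0 : C(KK, ℝ)) ≤ g - f := by
    intro z
    change (0 : ℝ) ≤ g z - f z
    linarith [h z]
  have h2 := hρ _ h1
  rw [map_sub] at h2
  linarith

lemma ccl_sum_x {ρ : MK KK} (hρ : ∀ f : C(KK, ℝ), 0 ≤ f → 0 ≤ ρ f) (hρ1 : ρ 1 = 1)
    (s : Finset E) : ∑ e ∈ s, ρ (xF e) ≤ 1 := by
  rw [← map_sum, ← hρ1]
  refine ccl_mono hρ fun z => ?_
  rw [ContinuousMap.sum_apply]
  exact ccl_sum_le s z

lemma ccl_sum_ax {ρ : MK KK} (hρ : ∀ f : C(KK, ℝ), 0 ≤ f → 0 ≤ ρ f) (γ : Gam)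
    (s : Finset E) : ∑ e ∈ s, ρ (aF γ * xF e) ≤ ρ (aF γ) := by
  rw [← map_sum]
  refine ccl_mono hρ fun z => ?_
  rw [ContinuousMap.sum_apply]
  simp only [ContinuousMap.mul_apply]
  rw [← Finset.mul_sum]
  exact mul_le_of_le_one_right (ccl_aF_nonneg γ z) (ccl_sum_le s z)

lemma ccl_x_nonneg {ρ : MK KK} (hρ : ∀ f : C(KK, ℝ), 0 ≤ f → 0 ≤ ρ f) (e : E) :
    0 ≤ ρ (xF e) := hρ _ fun z => ccl_xF_nonneg e z

lemma ccl_ax_nonneg {ρ : MK KK} (hρ : ∀ f : C(KK, ℝ), 0 ≤ f → 0 ≤ ρ f) (γ : Gam) (e : E) :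
    0 ≤ ρ (aF γ * xF e) :=
  hρ _ fun z => mul_nonneg (ccl_aF_nonneg γ z) (ccl_xF_nonneg e z)

lemma ccl_ax_le {ρ : MK KK} (hρ : ∀ f : C(KK, ℝ), 0 ≤ f → 0 ≤ ρ f) (γ : Gam) (e : E) :
    ρ (aF γ * xF e) ≤ ρ (xF e) := by
  refine ccl_mono hρ fun z => ?_
  rw [ContinuousMap.mul_apply]
  exact mul_le_of_le_one_left (ccl_xF_nonneg e z) (ccl_aF_le γ z)

lemma ccl_ax_zero (ρ : MK KK) (γ : Gam) {e : E} (he : e ∈ γ.2.1) : ρ (aF γ * xF e) = 0 := by
  have h : aF γ * xF e = 0 := by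
    ext z
    rw [ContinuousMap.mul_apply, ccl_aF_apply, ccl_xF_apply]
    by_cases h1 : xc z.1 e = true
    · have h2 : ¬ ac z.1 γ = true := fun h3 => z.2.2.1 e γ h1 h3 he
      rw [if_neg h2, zero_mul]; rfl
    · rw [if_neg h1, mul_zero]; rfl
  rw [h, map_zero]

theorem classC_seq (u : ℕ → MK KK) (hu : ∀ n, u n ∈ ClassC) (ρ : MK KK)
    (h : Tendsto u atTop (𝓝 ρ)) : ρ ∈ ClassC := by
  have hev : ∀ f : C(KK, ℝ), Tendsto (fun n => u n f) atTop (𝓝 (ρ f)) := fun f =>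
    ((WeakDual.eval_continuous f).tendsto ρ).comp h
  have hpos : ∀ f : C(KK, ℝ), 0 ≤ f → 0 ≤ ρ f := fun f hf =>
    ge_of_tendsto' (hev f) fun n => (hu n).1 f hf
  have hone : ρ 1 = 1 := by
    refine tendsto_nhds_unique (hev 1) ?_
    have : (fun n => u n 1) = fun _ => (1 : ℝ) := funext fun n => (hu n).2.1
    rw [this]
    exact tendsto_const_nhds
  choose P hP Z0 hZ0 hsum using fun n => (hu n).2.2
  obtain ⟨Y, hY, hYf⟩ := isSmall_pseudo Z0 hZ0
  -- the masses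
  set σ : ℕ → E → ℝ := fun n e => u n (xF e) with hσ
  set σ0 : E → ℝ := fun e => ρ (xF e) with hσ0
  have hσs : ∀ n, Summable (σ n) := fun n =>
    summable_of_sum_le (fun e => ccl_x_nonneg (hu n).1 e) (fun s => ccl_sum_x (hu n).1 (hu n).2.1 s)
  have hσ0s : Summable σ0 :=
    summable_of_sum_le (fun e => ccl_x_nonneg hpos e) (fun s => ccl_sum_x hpos hone s)
  have hσ0n : ∀ e, 0 ≤ σ0 e := fun e => ccl_x_nonneg hpos e
  have hσn : ∀ n e, 0 ≤ σ n e := fun n e => ccl_x_nonneg (hu n).1 e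
  set τ : ℕ → E → ℝ := fun n e => max (σ n e - σ0 e) 0 with hτ
  have hτ0 : ∀ n e, 0 ≤ τ n e := fun n e => le_max_right _ _
  have hτle : ∀ n e, τ n e ≤ σ n e := fun n e => max_le (by linarith [hσ0n e]) (hσn n e)
  have hτs : ∀ n, Summable (τ n) := fun n => Summable.of_nonneg_of_le (hτ0 n) (hτle n) (hσs n)
  have hτ1 : ∀ n, ∑' e, τ n e ≤ 1 := fun n =>
    ((hτs n).tsum_le_tsum (hτle n) (hσs n)).trans
      ((hσs n).tsum_le_of_sum_le fun s => ccl_sum_x (hu n).1 (hu n).2.1 s)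
  have hτz : ∀ e, Tendsto (fun n => τ n e) atTop (𝓝 0) := fun e => by
    have h1 : Tendsto (fun n => σ n e - σ0 e) atTop (𝓝 (σ0 e - σ0 e)) :=
      (hev (xF e)).sub tendsto_const_nhds
    rw [sub_self] at h1
    have h2 := h1.max (tendsto_const_nhds (x := (0 : ℝ)))
    rwa [max_self] at h2
  obtain ⟨Z1, hZ1, φ, hφ, hlim⟩ := exists_small_subseq τ hτ0 hτs hτ1 hτz
  refine ⟨hpos, hone, ⋃ n, P n, Set.countable_iUnion hP, Y ∪ Z1, isSmall_union hY hZ1, ?_⟩
  intro d hd Z hZ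
  set γ : Gam := (d, Z) with hγ
  have hkill : ∀ n, Kills d (P n) := fun n p hp => hd p (Set.mem_iUnion.mpr ⟨n, hp⟩)
  have hfin : ∀ n, (Z0 n \ Z.1).Finite := fun n => by
    refine ((hYf n).union hZ).subset ?_
    intro e he
    by_cases h1 : e ∈ Y
    · exact Or.inr ⟨Or.inl h1, he.2⟩
    · exact Or.inl ⟨he.1, h1⟩
  have hS : ∀ n, HasSum (fun e => u n (aF γ * xF e)) (u n (aF γ)) := fun n =>
    hsum n d (hkill n) Z (hfin n)
  set A : E → ℝ := fun e => ρ (aF γ * xF e) with hA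
  have hA0 : ∀ e, 0 ≤ A e := fun e => ccl_ax_nonneg hpos γ e
  have hAs : Summable A := summable_of_sum_le hA0 (fun s => ccl_sum_ax hpos γ s)
  have hle : ∑' e, A e ≤ ρ (aF γ) := hAs.tsum_le_of_sum_le fun s => ccl_sum_ax hpos γ s
  -- the truncated sums
  have hmin : Tendsto (fun n => ∑' e, min (u (φ n) (aF γ * xF e)) (σ0 e)) atTop
      (𝓝 (∑' e, min (A e) (σ0 e))) := by
    refine tendsto_tsum_of_dominated_convergence hσ0s (fun e => ?_) ?_
    · exact ((hev (aF γ * xF e)).comp hφ.tendsto_atTop).min tendsto_const_nhds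
    · refine Eventually.of_forall fun n e => ?_
      rw [Real.norm_eq_abs, abs_of_nonneg (le_min (ccl_ax_nonneg (hu _).1 γ e) (hσ0n e))]
      exact min_le_right _ _
  have hmin2 : ∑' e, min (A e) (σ0 e) = ∑' e, A e := by
    refine tsum_congr fun e => min_eq_left ?_
    exact ccl_ax_le hpos γ e
  rw [hmin2] at hmin
  -- the exceptional finite set
  set F : Finset E := hZ.toFinset with hF
  have hFlim : Tendsto (fun n => ∑ e ∈ F, τ (φ n) e) atTop (𝓝 0) := by
    have h1 := tendsto_finsetSum F fun e _ => (hτz e).comp hφ.tendsto_atTop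
    simpa using h1
  have hbd : ∀ n, u (φ n) (aF γ) ≤ ∑' e, min (u (φ n) (aF γ * xF e)) (σ0 e)
      + (∑' e, Set.indicator Z1ᶜ (τ (φ n)) e + ∑ e ∈ F, τ (φ n) e) := by
    intro n
    have hm : Summable (fun e => min (u (φ n) (aF γ * xF e)) (σ0 e)) :=
      Summable.of_nonneg_of_le (fun e => le_min (ccl_ax_nonneg (hu _).1 γ e) (hσ0n e))
        (fun e => min_le_right _ _) hσ0s
    have hi : Summable (Set.indicator Z1ᶜ (τ (φ n))) := (hτs (φ n)).indicator _
    have hj : Summable (Set.indicator (F : Set E) (τ (φ n))) := (hτs (φ n)).indicator _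
    have hj2 : ∑' e, Set.indicator (F : Set E) (τ (φ n)) e = ∑ e ∈ F, τ (φ n) e := by
      rw [← Finset.sum_coe_sort, ← tsum_fintype (L := SummationFilter.unconditional _)]
      exact (tsum_subtype (F : Set E) (τ (φ n))).symm
    rw [← hj2, ← hi.tsum_add hj, ← hm.tsum_add (hi.add hj), ← (hS (φ n)).tsum_eq]
    refine (hS (φ n)).summable.tsum_le_tsum (fun e => ?_) (hm.add (hi.add hj))
    have h0 : 0 ≤ Set.indicator Z1ᶜ (τ (φ n)) e := Set.indicator_nonneg (fun e _ => hτ0 _ e) e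
    have h1 : 0 ≤ Set.indicator (F : Set E) (τ (φ n)) e :=
      Set.indicator_nonneg (fun e _ => hτ0 _ e) e
    by_cases he : e ∈ Z.1
    · rw [ccl_ax_zero (u (φ n)) γ he]
      have := hσ0n e
      have : 0 ≤ min (0 : ℝ) (σ0 e) := le_min le_rfl this
      linarith
    · have h2 : τ (φ n) e ≤ Set.indicator Z1ᶜ (τ (φ n)) e + Set.indicator (F : Set E) (τ (φ n)) e := by
        by_cases h3 : e ∈ Z1
        · have h4 : e ∈ (F : Set E) := by
            rw [hF, Set.Finite.coe_toFinset]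
            exact ⟨Or.inr h3, he⟩
          rw [Set.indicator_of_mem h4]
          linarith
        · rw [Set.indicator_of_mem (show e ∈ Z1ᶜ from h3)]
          linarith
      have h3 : u (φ n) (aF γ * xF e) ≤ min (u (φ n) (aF γ * xF e)) (σ0 e) + τ (φ n) e := by
        rcases le_total (u (φ n) (aF γ * xF e)) (σ0 e) with h4 | h4
        · rw [min_eq_left h4]
          linarith [hτ0 (φ n) e]
        · rw [min_eq_right h4]
          have h5 := ccl_ax_le (hu (φ n)).1 γ e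
          have h6 : σ (φ n) e - σ0 e ≤ τ (φ n) e := le_max_left _ _
          simp only [hσ] at h6
          linarith
      linarith
  have hge : ρ (aF γ) ≤ ∑' e, A e := by
    have h1 := hmin.add (hlim.add hFlim)
    rw [add_zero, add_zero] at h1
    exact le_of_tendsto_of_tendsto' ((hev (aF γ)).comp hφ.tendsto_atTop) h1 hbd
  have heq : ρ (aF γ) = ∑' e, A e := le_antisymm hge hle
  rw [heq]
  exact hAs.hasSum

end Pool.Agent.SeqK
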