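import Mathlib

namespace Pool.Agent.SeqK

open MeasureTheory Topology Filter

/-- basic open boxes of `ℝ^B` -/
def edgarBox {B : Type*} (b : Set (B → ℝ)) : Prop :=
  ∃ (I : Finset B) (U : B → Set ℝ), (∀ i, IsOpen (U i)) ∧ b = Set.pi (I : Set B) U

/-- a nonempty box has positive measure for the Gaussian product measure -/
theorem edgar_pos {B : Type*} {b : Set (B → ℝ)} (hb : edgarBox b) (hne : b.Nonempty) :
    0 < Measure.infinitePi (fun _ : B => ProbabilityTheory.gaussianReal 0 1) b := by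
  obtain ⟨I, U, hU, rfl⟩ := hb
  rw [Measure.infinitePi_pi _ (fun i _ => (hU i).measurableSet)]
  rw [pos_iff_ne_zero, Finset.prod_ne_zero_iff]
  intro i hi h0
  obtain ⟨x, hx⟩ := hne
  have h1 : (volume : Measure ℝ) (U i) = 0 :=
    ProbabilityTheory.gaussianReal_absolutelyContinuous' 0 one_ne_zero h0
  exact ((hU i).measure_pos volume ⟨x i, hx i hi⟩).ne' h1

theorem edgarBox_measurable {B : Type*} {b : Set (B → ℝ)} (hb : edgarBox b) :
    MeasurableSet b := by
  obtain ⟨I, U, hU, rfl⟩ := hb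
  exact MeasurableSet.pi I.countable_toSet (fun i _ => (hU i).measurableSet)

/-- a family of pairwise disjoint nonempty boxes is countable -/
theorem edgar_countable {B : Type*} {A : Set (Set (B → ℝ))} (hA : ∀ b ∈ A, edgarBox b)
    (hne : ∀ b ∈ A, b.Nonempty) (hd : A.PairwiseDisjoint id) : A.Countable := by
  have h1 := Measure.countable_meas_pos_of_disjoint_iUnion
    (μ := Measure.infinitePi (fun _ : B => ProbabilityTheory.gaussianReal 0 1))
    (As := fun b : A => (b : Set (B → ℝ))) (fun b => edgarBox_measurable (hA b b.2)) (by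
      intro a b hab
      exact hd a.2 b.2 (fun h => hab (Subtype.ext h)))
  have h2 : {i : A | 0 < Measure.infinitePi
      (fun _ : B => ProbabilityTheory.gaussianReal 0 1) (i : Set (B → ℝ))} = Set.univ := by
    ext b
    simp only [Set.mem_univ, iff_true]
    exact edgar_pos (hA b b.2) (hne b b.2)
  rw [h2, Set.countable_univ_iff] at h1
  exact Set.countable_coe_iff.mp h1

/-- boxes form a basis -/
theorem edgar_basis {B : Type*} {O : Set (B → ℝ)} (hO : IsOpen O) {x : B → ℝ} (hx : x ∈ O) :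
    ∃ b : Set (B → ℝ), edgarBox b ∧ x ∈ b ∧ b ⊆ O := by
  rw [isOpen_pi_iff] at hO
  obtain ⟨I, U, hU, hIU⟩ := hO x hx
  classical
  refine ⟨Set.pi (I : Set B) (fun i => if i ∈ I then U i else Set.univ),
    ⟨I, _, ?_, rfl⟩, ?_, ?_⟩
  · intro i
    by_cases hi : i ∈ I
    · simp only [hi, if_true]
      exact (hU i hi).1
    · simp only [hi, if_false]
      exact isOpen_univ
  · intro i hi
    have hi' : i ∈ I := hi
    simp only [hi', if_true]
    exact (hU i hi').2
  · intro y hy
    apply hIU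
    intro i hi
    have hi' : i ∈ I := hi
    have := hy i hi
    simpa only [hi', if_true] using this

theorem edgarBox_open {B : Type*} {b : Set (B → ℝ)} (hb : edgarBox b) : IsOpen b := by
  obtain ⟨I, U, hU, rfl⟩ := hb
  exact isOpen_set_pi I.finite_toSet (fun i _ => hU i)

/-- a maximal family -/
theorem edgar_maximal {B : Type*} (O : Set (B → ℝ)) (hO : IsOpen O) :
    ∃ A : Set (Set (B → ℝ)), (∀ b ∈ A, edgarBox b ∧ b.Nonempty ∧ b ⊆ O) ∧
      A.PairwiseDisjoint id ∧ O ⊆ closure (⋃₀ A) := by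
  obtain ⟨A, hA⟩ := zorn_subset
    {A : Set (Set (B → ℝ)) | (∀ b ∈ A, edgarBox b ∧ b.Nonempty ∧ b ⊆ O) ∧ A.PairwiseDisjoint id}
    (by
      intro c hc hcc
      refine ⟨⋃₀ c, ⟨?_, ?_⟩, fun s hs => Set.subset_sUnion_of_mem hs⟩
      · rintro b ⟨s, hs, hb⟩
        exact (hc hs).1 b hb
      · rintro a ⟨s, hs, ha⟩ b ⟨t, ht, hb⟩ hab
        rcases hcc.total hs ht with h | h
        · exact (hc ht).2 (h ha) hb hab
        · exact (hc hs).2 ha (h hb) hab)
  refine ⟨A, hA.prop.1, hA.prop.2, ?_⟩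
  intro x hx
  rw [mem_closure_iff]
  intro U hU hxU
  obtain ⟨b, hb, hxb, hbO⟩ := edgar_basis (hO.inter hU) ⟨hx, hxU⟩
  by_contra hempty
  rw [Set.not_nonempty_iff_eq_empty] at hempty
  have hdis : ∀ a ∈ A, Disjoint b a := by
    intro a ha
    rw [Set.disjoint_left]
    intro y hyb hya
    have : y ∈ U ∩ ⋃₀ A := ⟨(hbO hyb).2, a, ha, hya⟩
    rw [hempty] at this
    exact this
  have hins : insert b A ∈ {A : Set (Set (B → ℝ)) |
      (∀ b ∈ A, edgarBox b ∧ b.Nonempty ∧ b ⊆ O) ∧ A.PairwiseDisjoint id} := by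
    refine ⟨?_, ?_⟩
    · intro a ha
      rcases Set.mem_insert_iff.mp ha with rfl | ha
      · exact ⟨hb, ⟨x, hxb⟩, fun y hy => (hbO hy).1⟩
      · exact hA.prop.1 a ha
    · apply hA.prop.2.insert
      intro a ha _
      exact hdis a ha
  have hbA : b ∈ A := hA.le_of_ge hins (Set.subset_insert b A) (Set.mem_insert b A)
  have := hdis b hbA
  rw [disjoint_self] at this
  rw [this] at hxb
  exact hxb

/-- the restriction map is open -/
theorem edgar_openMap {B : Type*} (C : Set B) :
    IsOpenMap (fun (x : B → ℝ) (i : C) => x i) := by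
  classical
  have h1 : (fun (x : B → ℝ) (i : C) => x i) =
      Prod.fst ∘ (Homeomorph.piEquivPiSubtypeProd (· ∈ C) (fun _ : B => ℝ)) := rfl
  rw [h1]
  exact isOpenMap_fst.comp (Homeomorph.piEquivPiSubtypeProd (· ∈ C) (fun _ : B => ℝ)).isOpenMap

/-- In `ℝ^B` the closure of an open set belongs to the product sigma-algebra
(it depends on countably many coordinates, because `ℝ^B` is ccc). -/
theorem measurableSet_closure_of_isOpen {B : Type*} (O : Set (B → ℝ)) (hO : IsOpen O) :
    MeasurableSet (closure O) := by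
  obtain ⟨A, hA1, hA2, hA3⟩ := edgar_maximal O hO
  have hcount : A.Countable := edgar_countable (fun b hb => (hA1 b hb).1)
    (fun b hb => (hA1 b hb).2.1) hA2
  have hcl : closure O = closure (⋃₀ A) := by
    apply Set.Subset.antisymm
    · exact closure_minimal hA3 isClosed_closure
    · apply closure_mono
      exact Set.sUnion_subset (fun b hb => (hA1 b hb).2.2)
  rw [hcl]
  have hI : ∀ b : A, ∃ (I : Finset B) (U : B → Set ℝ), (∀ i, IsOpen (U i)) ∧
      (b : Set (B → ℝ)) = Set.pi (I : Set B) U := fun b => (hA1 b b.2).1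
  choose I U hU hIU using hI
  have : Countable A := hcount.to_subtype
  set C : Set B := ⋃ b : A, (I b : Set B) with hC
  have hCc : C.Countable := Set.countable_iUnion (fun b => (I b).countable_toSet)
  have : Countable C := hCc.to_subtype
  let r : (B → ℝ) → (C → ℝ) := fun x i => x i
  have hrc : Continuous r := continuous_pi (fun i => continuous_apply _)
  have hrm : Measurable r := measurable_pi_lambda _ (fun i => measurable_pi_apply _)
  have hW : ⋃₀ A = r ⁻¹' (r '' (⋃₀ A)) := by
    apply Set.Subset.antisymm (Set.subset_preimage_image r _)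
    rintro x ⟨y, ⟨b, hb, hyb⟩, hyx⟩
    refine ⟨b, hb, ?_⟩
    have h1 : b = Set.pi (I ⟨b, hb⟩ : Set B) (U ⟨b, hb⟩) := hIU ⟨b, hb⟩
    rw [h1] at hyb ⊢
    intro i hi
    have hiC : i ∈ C := Set.mem_iUnion.mpr ⟨⟨b, hb⟩, hi⟩
    have h2 : y i = x i := congrFun hyx ⟨i, hiC⟩
    rw [← h2]
    exact hyb i hi
  rw [hW, ← (edgar_openMap C).preimage_closure_eq_closure_preimage hrc]
  exact hrm isClosed_closure.measurableSet

end Pool.Agent.SeqK
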