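import Mathlib
import Pool.Agent.SeqK.Defs
import Pool.Agent.SeqK.EdgarA

namespace Pool.Agent.SeqK

open MeasureTheory Topology Filter

/-- finitely many linearly independent functionals take prescribed values -/
theorem edgarB_surj {V ι : Type*} [AddCommGroup V] [Module ℝ V] (b : ι → Module.Dual ℝ V)
    (hb : LinearIndependent ℝ b) (I : Finset ι) (x : ι → ℝ) : ∃ v : V, ∀ i ∈ I, b i v = x i := by
  classical
  let T : V →ₗ[ℝ] (I → ℝ) := LinearMap.pi (fun i : I => b i)
  have hT : Function.Surjective T := by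
    rw [← LinearMap.range_eq_top]
    by_contra hne
    obtain ⟨f, hf0, hf⟩ := Submodule.exists_le_ker_of_lt_top (LinearMap.range T)
      (lt_top_iff_ne_top.mpr hne)
    have h1 : ∀ v, ∑ i : I, f (Pi.single i 1) * b i v = 0 := by
      intro v
      have h2 : f (T v) = 0 := hf (LinearMap.mem_range_self T v)
      have h3 : T v = ∑ i : I, (b i v) • (Pi.single i (1 : ℝ) : I → ℝ) := by
        ext j
        simp [T, Finset.sum_apply, Pi.single_apply]
      rw [h3, map_sum] at h2
      simp only [map_smul, smul_eq_mul] at h2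
      rw [← h2]
      exact Finset.sum_congr rfl (fun i _ => mul_comm _ _)
    have h4 : ∑ i : I, f (Pi.single i 1) • b i = 0 := by
      ext v
      have := h1 v
      simpa [LinearMap.sum_apply] using this
    have h5 := (linearIndependent_iff'.mp (hb.comp (fun i : I => (i : ι))
      Subtype.val_injective)) Finset.univ (fun i => f (Pi.single i 1)) h4
    apply hf0
    apply LinearMap.pi_ext'
    intro i
    ext
    simpa using h5 i (Finset.mem_univ i)
  obtain ⟨v, hv⟩ := hT (fun i => x i)
  exact ⟨v, fun i hi => congrFun hv ⟨i, hi⟩⟩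

/-- comparison of two initial topologies -/
theorem edgarB_le {X ι κ : Type*} (F : X → ι → ℝ) (G : X → κ → ℝ)
    (h : ∀ k, ∃ i, ∀ x, G x k = F x i) :
    TopologicalSpace.induced F Pi.topologicalSpace ≤
      TopologicalSpace.induced G Pi.topologicalSpace := by
  rw [← continuous_iff_le_induced]
  let _ : TopologicalSpace X := TopologicalSpace.induced F Pi.topologicalSpace
  have hF : Continuous F := continuous_induced_dom
  apply continuous_pi
  intro k
  obtain ⟨i, hi⟩ := h k
  have h1 : (fun x => G x k) = fun x => F x i := funext hi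
  rw [h1]
  exact (continuous_apply i).comp hF

/-- Edgar: a function continuous for the weak topology `σ(V, W)` is measurable for the
sigma-algebra generated by `W`. -/
theorem measurable_of_weak_continuous {V : Type*} [AddCommGroup V] [Module ℝ V]
    (W : Submodule ℝ (Module.Dual ℝ V)) (g : V → ℝ)
    (hg : @Continuous V ℝ (TopologicalSpace.induced (fun v (φ : W) => φ.1 v) Pi.topologicalSpace)
      _ g) :
    @Measurable V ℝ (⨆ φ : W, MeasurableSpace.comap (fun v => φ.1 v) (borel ℝ)) _ g := by
  let B := Module.Basis.ofVectorSpace ℝ W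
  set ι := Module.Basis.ofVectorSpaceIndex ℝ W
  let T : V → (ι → ℝ) := fun v i => (B i).1 v
  -- every functional of `W` is a continuous function of `T`
  have htop : TopologicalSpace.induced T Pi.topologicalSpace ≤
      TopologicalSpace.induced (fun v (φ : W) => φ.1 v) Pi.topologicalSpace := by
    rw [← continuous_iff_le_induced]
    let _ : TopologicalSpace V := TopologicalSpace.induced T Pi.topologicalSpace
    have hTc : Continuous T := continuous_induced_dom
    apply continuous_pi
    intro φ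
    have h1 : ∀ v, φ.1 v = ∑ i ∈ (B.repr φ).support, (B.repr φ i) * T v i := by
      intro v
      have h2 := B.linearCombination_repr φ
      rw [Finsupp.linearCombination_apply, Finsupp.sum] at h2
      have h3 := congrArg (fun ψ : W => ψ.1 v) h2
      simp only [Submodule.coe_sum, LinearMap.sum_apply, Submodule.coe_smul,
        LinearMap.smul_apply, smul_eq_mul] at h3
      exact h3.symm
    have h4 : (fun v => φ.1 v) = fun v => ∑ i ∈ (B.repr φ).support, (B.repr φ i) * T v i :=
      funext h1
    rw [h4]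
    apply continuous_finsetSum
    intro i _
    exact continuous_const.mul ((continuous_apply i).comp hTc)
  have hg' : @Continuous V ℝ (TopologicalSpace.induced T Pi.topologicalSpace) _ g :=
    continuous_le_dom htop hg
  -- dense range
  have hli : LinearIndependent ℝ (fun i : ι => (B i).1) :=
    B.linearIndependent.map' W.subtype (Submodule.ker_subtype W)
  have hdense : ∀ O : Set (ι → ℝ), IsOpen O → O.Nonempty → ∃ v, T v ∈ O := by
    intro O hO ⟨x, hx⟩
    rw [isOpen_pi_iff] at hO
    obtain ⟨I, U, hU, hIU⟩ := hO x hx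
    obtain ⟨v, hv⟩ := edgarB_surj (fun i : ι => (B i).1) hli I x
    refine ⟨v, hIU ?_⟩
    intro i hi
    show (B i).1 v ∈ U i
    rw [hv i hi]
    exact (hU i hi).2
  -- open sets
  have hO : ∀ r : ℝ, ∃ O : Set (ι → ℝ), IsOpen O ∧ T ⁻¹' O = g ⁻¹' (Set.Iio r) := by
    intro r
    exact isOpen_induced_iff.mp (@Continuous.isOpen_preimage V ℝ
      (TopologicalSpace.induced T Pi.topologicalSpace) _ g hg' (Set.Iio r) isOpen_Iio)
  have hO2 : ∀ r : ℝ, ∃ O : Set (ι → ℝ), IsOpen O ∧ T ⁻¹' O = g ⁻¹' (Set.Ioi r) := by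
    intro r
    exact isOpen_induced_iff.mp (@Continuous.isOpen_preimage V ℝ
      (TopologicalSpace.induced T Pi.topologicalSpace) _ g hg' (Set.Ioi r) isOpen_Ioi)
  choose O hOo hOp using hO
  have hle : ∀ r v, T v ∈ closure (O r) → g v ≤ r := by
    intro r v hv
    by_contra hlt
    push Not at hlt
    obtain ⟨O', hO'o, hO'p⟩ := hO2 r
    have h1 : T v ∈ O' := by
      have : v ∈ T ⁻¹' O' := by
        rw [hO'p]
        exact hlt
      exact this
    obtain ⟨u, hu⟩ := hdense (O' ∩ O r) (hO'o.inter (hOo r)) (mem_closure_iff.mp hv O' hO'o h1)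
    have h2 : u ∈ T ⁻¹' O' := hu.1
    have h3 : u ∈ T ⁻¹' (O r) := hu.2
    rw [hO'p] at h2
    rw [hOp r] at h3
    exact lt_asymm (a := r) (b := g u) h2 h3
  -- measurability
  let mV : MeasurableSpace V := ⨆ φ : W, MeasurableSpace.comap (fun v => φ.1 v) (borel ℝ)
  have hTm : Measurable T := by
    apply measurable_pi_lambda
    intro i
    have h1 : MeasurableSpace.comap (fun v => (B i).1 v) (borel ℝ) ≤ mV :=
      le_iSup (fun φ : W => MeasurableSpace.comap (fun v => φ.1 v) (borel ℝ)) (B i)
    rw [measurable_iff_comap_le]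
    rw [BorelSpace.measurable_eq (α := ℝ)]
    exact h1
  apply measurable_of_Iio
  intro r
  have hr : g ⁻¹' (Set.Iio r) = ⋃ q : {q : ℚ // (q : ℝ) < r}, T ⁻¹' (closure (O q)) := by
    ext v
    simp only [Set.mem_preimage, Set.mem_Iio, Set.mem_iUnion]
    constructor
    · intro h
      obtain ⟨q, hq1, hq2⟩ := exists_rat_btwn h
      refine ⟨⟨q, hq2⟩, subset_closure ?_⟩
      have : v ∈ T ⁻¹' (O q) := by
        rw [hOp]
        exact hq1
      exact this
    · rintro ⟨q, hq⟩
      exact lt_of_le_of_lt (hle _ _ hq) q.2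
  rw [hr]
  apply MeasurableSet.iUnion
  intro q
  exact hTm (measurableSet_closure_of_isOpen _ (hOo _))

/-- the Baire sigma-algebra of `C_w(K)` is contained in the sigma-algebra generated by `C(K)^*` -/
theorem baire_weak_le (K : Type*) [TopologicalSpace K] [CompactSpace K] :
    baire C(K, ℝ) (weakTop K) ≤
      ⨆ φ : StrongDual ℝ C(K, ℝ), MeasurableSpace.comap (fun f : C(K, ℝ) => φ f) (borel ℝ) := by
  unfold baire
  apply iSup_le
  rintro ⟨g, hg⟩
  let W : Submodule ℝ (Module.Dual ℝ C(K, ℝ)) :=
    LinearMap.range (ContinuousLinearMap.coeLM ℝ : (StrongDual ℝ C(K, ℝ)) →ₗ[ℝ] _)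
  have hW : ∀ φ : W, ∃ ψ : StrongDual ℝ C(K, ℝ), ∀ f, φ.1 f = ψ f := by
    rintro ⟨φ, hφ⟩
    obtain ⟨ψ, rfl⟩ := hφ
    exact ⟨ψ, fun f => rfl⟩
  have h1 : weakTop K = TopologicalSpace.induced (fun v (φ : W) => φ.1 v)
      Pi.topologicalSpace := by
    apply le_antisymm
    · exact edgarB_le _ _ hW
    · exact edgarB_le _ _ (fun ψ => ⟨⟨(ψ : C(K, ℝ) →ₗ[ℝ] ℝ), ⟨ψ, rfl⟩⟩, fun f => rfl⟩)
  have hg' : @Continuous C(K, ℝ) ℝ (TopologicalSpace.induced (fun v (φ : W) => φ.1 v)
      Pi.topologicalSpace) _ g := by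
    rw [← h1]
    exact hg
  have h2 := measurable_of_weak_continuous W g hg'
  have h3 : (⨆ φ : W, MeasurableSpace.comap (fun v : C(K, ℝ) => φ.1 v) (borel ℝ)) ≤
      ⨆ φ : StrongDual ℝ C(K, ℝ), MeasurableSpace.comap (fun f : C(K, ℝ) => φ f) (borel ℝ) := by
    apply iSup_le
    intro φ
    obtain ⟨ψ, hψ⟩ := hW φ
    have : (fun f => φ.1 f) = fun f => ψ f := funext hψ
    rw [this]
    exact le_iSup (fun φ : StrongDual ℝ C(K, ℝ) =>
      MeasurableSpace.comap (fun f : C(K, ℝ) => φ f) (borel ℝ)) ψ
  refine le_trans ?_ h3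
  rw [measurable_iff_comap_le, BorelSpace.measurable_eq (α := ℝ)] at h2
  exact h2

end Pool.Agent.SeqK
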