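import Mathlib

namespace Pool.Agent.SeqK

open MeasureTheory Topology Filter

section Jordan

variable {K : Type*} [TopologicalSpace K] [CompactSpace K]

/-- the supremum of `φ` over the order interval `[0, f]` -/
noncomputable def jor_P (φ : StrongDual ℝ C(K, ℝ)) (f : C(K, ℝ)) : ℝ := sSup (φ '' Set.Icc 0 f)

lemma jor_bdd (φ : StrongDual ℝ C(K, ℝ)) (f : C(K, ℝ)) : BddAbove (φ '' Set.Icc 0 f) := by
  refine ⟨‖φ‖ * ‖f‖, ?_⟩
  rintro r ⟨g, ⟨hg0, hgf⟩, rfl⟩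
  refine (le_abs_self _).trans ((φ.le_opNorm g).trans ?_)
  refine mul_le_mul_of_nonneg_left ?_ (norm_nonneg _)
  rw [ContinuousMap.norm_le _ (norm_nonneg _)]
  intro x
  have h1 : 0 ≤ g x := hg0 x
  have h2 : g x ≤ f x := hgf x
  rw [Real.norm_eq_abs, abs_of_nonneg h1]
  exact h2.trans ((le_abs_self _).trans (f.norm_coe_le_norm x))

lemma jor_le (φ : StrongDual ℝ C(K, ℝ)) {f g : C(K, ℝ)} (hg : 0 ≤ g) (hgf : g ≤ f) :
    φ g ≤ jor_P φ f := le_csSup (jor_bdd φ f) ⟨g, ⟨hg, hgf⟩, rfl⟩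

omit [CompactSpace K] in
lemma jor_sup_le (φ : StrongDual ℝ C(K, ℝ)) {f : C(K, ℝ)} (hf : 0 ≤ f) {c : ℝ}
    (h : ∀ g, 0 ≤ g → g ≤ f → φ g ≤ c) : jor_P φ f ≤ c := by
  refine csSup_le ⟨φ 0, ⟨0, ⟨le_rfl, hf⟩, rfl⟩⟩ ?_
  rintro r ⟨g, ⟨hg0, hgf⟩, rfl⟩
  exact h g hg0 hgf

lemma jor_nonneg (φ : StrongDual ℝ C(K, ℝ)) {f : C(K, ℝ)} (hf : 0 ≤ f) : 0 ≤ jor_P φ f := by
  have h := jor_le φ le_rfl hf
  rwa [map_zero] at h

lemma jor_add (φ : StrongDual ℝ C(K, ℝ)) {f g : C(K, ℝ)} (hf : 0 ≤ f) (hg : 0 ≤ g) :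
    jor_P φ (f + g) = jor_P φ f + jor_P φ g := by
  refine le_antisymm ?_ ?_
  · refine jor_sup_le φ (add_nonneg hf hg) fun u hu0 hu => ?_
    have h1 : u = (u ⊓ f) + (u - u ⊓ f) := by abel
    have h2 : φ u = φ (u ⊓ f) + φ (u - u ⊓ f) := by
      conv_lhs => rw [h1, map_add]
    rw [h2]
    refine add_le_add (jor_le φ (le_inf hu0 hf) inf_le_right) (jor_le φ ?_ ?_)
    · exact sub_nonneg.mpr inf_le_left
    · intro x
      have h3 : u x ≤ f x + g x := hu x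
      have h4 : 0 ≤ g x := hg x
      change u x - min (u x) (f x) ≤ g x
      rcases le_total (u x) (f x) with h6 | h6
      · rw [min_eq_left h6, sub_self]; exact h4
      · rw [min_eq_right h6]; linarith
  · rw [← le_sub_iff_add_le]
    refine jor_sup_le φ hf fun u hu0 hu => ?_
    rw [le_sub_comm]
    refine jor_sup_le φ hg fun v hv0 hv => ?_
    rw [le_sub_iff_add_le, add_comm, ← map_add]
    exact jor_le φ (add_nonneg hu0 hv0) (add_le_add hu hv)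

lemma jor_smul_le (φ : StrongDual ℝ C(K, ℝ)) {f : C(K, ℝ)} (hf : 0 ≤ f) {c : ℝ} (hc : 0 < c) :
    jor_P φ (c • f) ≤ c * jor_P φ f := by
  have hcf : 0 ≤ c • f := smul_nonneg hc.le hf
  refine jor_sup_le φ hcf fun u hu0 hu => ?_
  have h1 : φ (c⁻¹ • u) ≤ jor_P φ f := by
    refine jor_le φ (smul_nonneg (by positivity) hu0) ?_
    intro x
    have h2 : u x ≤ c * f x := hu x
    change c⁻¹ * u x ≤ f x
    rw [inv_mul_le_iff₀ hc]
    exact h2
  rw [map_smul, smul_eq_mul, inv_mul_le_iff₀ hc] at h1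
  exact h1

lemma jor_smul (φ : StrongDual ℝ C(K, ℝ)) {f : C(K, ℝ)} (hf : 0 ≤ f) {c : ℝ} (hc : 0 ≤ c) :
    jor_P φ (c • f) = c * jor_P φ f := by
  rcases hc.eq_or_lt with h0 | h0
  · rw [← h0, zero_smul, zero_mul]
    have h := jor_add φ (le_refl (0 : C(K, ℝ))) (le_refl (0 : C(K, ℝ)))
    rw [add_zero] at h
    linarith
  · refine le_antisymm (jor_smul_le φ hf h0) ?_
    have h := jor_smul_le φ (smul_nonneg hc hf) (inv_pos.mpr h0)
    rw [smul_smul, inv_mul_cancel₀ h0.ne', one_smul] at h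
    rwa [← inv_mul_le_iff₀ (inv_pos.mpr h0), inv_inv] at h

/-- the extension to all functions -/
noncomputable def jor_Q (φ : StrongDual ℝ C(K, ℝ)) (f : C(K, ℝ)) : ℝ :=
  jor_P φ (f ⊔ 0) - jor_P φ ((-f) ⊔ 0)

omit [CompactSpace K] in
lemma jor_split (f : C(K, ℝ)) : f = (f ⊔ 0) - ((-f) ⊔ 0) := by
  ext x
  change f x = max (f x) 0 - max (-(f x)) 0
  rcases le_total (f x) 0 with h | h
  · rw [max_eq_right h, max_eq_left (by linarith)]; ring
  · rw [max_eq_left h, max_eq_right (by linarith)]; ring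

lemma jor_Q_eq (φ : StrongDual ℝ C(K, ℝ)) {f a b : C(K, ℝ)} (ha : 0 ≤ a) (hb : 0 ≤ b)
    (h : f = a - b) : jor_Q φ f = jor_P φ a - jor_P φ b := by
  have h1 : (f ⊔ 0) + b = a + ((-f) ⊔ 0) := by
    have h2 := jor_split f
    have h3 : (f ⊔ 0) - ((-f) ⊔ 0) = a - b := by rw [← h2]; exact h
    rw [sub_eq_sub_iff_add_eq_add] at h3
    exact h3
  have h4 := jor_add φ (f := f ⊔ 0) le_sup_right hb
  have h5 := jor_add φ (g := (-f) ⊔ 0) ha le_sup_right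
  rw [h1] at h4
  unfold jor_Q
  linarith

/-- Jordan decomposition of a bounded functional on `C(K)` -/
theorem exists_pos_sub {K : Type*} [TopologicalSpace K] [CompactSpace K]
    (φ : StrongDual ℝ C(K, ℝ)) : ∃ φ₁ φ₂ : C(K, ℝ) →ₗ[ℝ] ℝ,
      (∀ f, 0 ≤ f → 0 ≤ φ₁ f) ∧ (∀ f, 0 ≤ f → 0 ≤ φ₂ f) ∧ ∀ f, φ f = φ₁ f - φ₂ f := by
  have hadd : ∀ f g : C(K, ℝ), jor_Q φ (f + g) = jor_Q φ f + jor_Q φ g := by
    intro f g
    have h1 : f + g = ((f ⊔ 0) + (g ⊔ 0)) - (((-f) ⊔ 0) + ((-g) ⊔ 0)) := by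
      conv_lhs => rw [jor_split f, jor_split g]
      abel
    rw [jor_Q_eq φ (add_nonneg le_sup_right le_sup_right)
      (add_nonneg le_sup_right le_sup_right) h1, jor_add φ le_sup_right le_sup_right,
      jor_add φ le_sup_right le_sup_right]
    unfold jor_Q
    ring
  have hsmul : ∀ (c : ℝ) (f : C(K, ℝ)), jor_Q φ (c • f) = c * jor_Q φ f := by
    intro c f
    rcases le_total 0 c with hc | hc
    · have h1 : c • f = c • (f ⊔ 0) - c • ((-f) ⊔ 0) := by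
        rw [← smul_sub, ← jor_split f]
      rw [jor_Q_eq φ (smul_nonneg hc le_sup_right) (smul_nonneg hc le_sup_right) h1,
        jor_smul φ le_sup_right hc, jor_smul φ le_sup_right hc]
      unfold jor_Q
      ring
    · have hc' : 0 ≤ -c := by linarith
      have h1 : c • f = (-c) • ((-f) ⊔ 0) - (-c) • (f ⊔ 0) := by
        rw [← smul_sub]
        have h2 : ((-f) ⊔ 0) - (f ⊔ 0) = -f := by
          conv_rhs => rw [jor_split f]
          abel
        rw [h2, smul_neg, neg_smul, neg_neg]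
      rw [jor_Q_eq φ (smul_nonneg hc' le_sup_right) (smul_nonneg hc' le_sup_right) h1,
        jor_smul φ le_sup_right hc', jor_smul φ le_sup_right hc']
      unfold jor_Q
      ring
  have hP : ∀ f : C(K, ℝ), 0 ≤ f → jor_Q φ f = jor_P φ f := by
    intro f hf
    rw [jor_Q_eq φ hf (le_refl 0) (sub_zero f).symm]
    have h := jor_add φ (le_refl (0 : C(K, ℝ))) (le_refl (0 : C(K, ℝ)))
    rw [add_zero] at h
    linarith
  let φ₁ : C(K, ℝ) →ₗ[ℝ] ℝ :=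
    { toFun := jor_Q φ
      map_add' := hadd
      map_smul' := fun c f => by rw [hsmul]; rfl }
  refine ⟨φ₁, φ₁ - (φ : C(K, ℝ) →ₗ[ℝ] ℝ), ?_, ?_, ?_⟩
  · intro f hf
    change 0 ≤ jor_Q φ f
    rw [hP f hf]
    exact jor_nonneg φ hf
  · intro f hf
    change 0 ≤ jor_Q φ f - φ f
    rw [hP f hf, sub_nonneg]
    exact jor_le φ hf le_rfl
  · intro f
    change φ f = jor_Q φ f - (jor_Q φ f - φ f)
    ring

end Jordan

end Pool.Agent.SeqK
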