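import Mathlib
import Pool.Agent.SeqK.Base

namespace Pool.Agent.SeqK

open MeasureTheory Topology Filter

/-- remainders of the greedy binary expansion -/
noncomputable def bernRem : ℕ → ENNReal → ℝ
  | 0, t => t.toReal
  | n + 1, t => 2 * bernRem n t - (if (1 / 2 : ℝ) ≤ bernRem n t then 1 else 0)

/-- the digits, as real numbers -/
noncomputable def bernDig (n : ℕ) (t : ENNReal) : ℝ := if (1 / 2 : ℝ) ≤ bernRem n t then 1 else 0

lemma bernRem_succ (n : ℕ) (t : ENNReal) : bernRem (n + 1) t = 2 * bernRem n t - bernDig n t := rfl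

lemma bernRem_measurable (n : ℕ) : Measurable (bernRem n) := by
  induction n with
  | zero => exact ENNReal.measurable_toReal
  | succ n ih =>
    have h : Measurable (fun t => if (1 / 2 : ℝ) ≤ bernRem n t then (1 : ℝ) else 0) :=
      Measurable.ite (measurableSet_le measurable_const ih) measurable_const measurable_const
    exact (ih.const_mul 2).sub h

lemma bernRem_mem (t : ENNReal) (ht : t ≤ 1) (n : ℕ) : 0 ≤ bernRem n t ∧ bernRem n t ≤ 1 := by
  induction n with
  | zero =>
    refine ⟨ENNReal.toReal_nonneg, ?_⟩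
    have := ENNReal.toReal_mono ENNReal.one_ne_top ht
    simpa [bernRem] using this
  | succ n ih =>
    rw [bernRem_succ]
    unfold bernDig
    split_ifs with h
    · constructor <;> linarith [ih.1, ih.2]
    · push Not at h
      constructor <;> linarith [ih.1, ih.2]

lemma bernDig_nonneg (t : ENNReal) (n : ℕ) : 0 ≤ bernDig n t := by
  unfold bernDig; split_ifs <;> norm_num

lemma bern_partial (t : ENNReal) (n : ℕ) :
    t.toReal = (∑ j ∈ Finset.range n, (1 / 2 : ℝ) ^ (j + 1) * bernDig j t) +
      (1 / 2 : ℝ) ^ n * bernRem n t := by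
  induction n with
  | zero => simp [bernRem]
  | succ n ih =>
    rw [Finset.sum_range_succ, bernRem_succ]
    rw [ih]
    ring

lemma bern_hasSum (t : ENNReal) (ht : t ≤ 1) :
    HasSum (fun j => (1 / 2 : ℝ) ^ (j + 1) * bernDig j t) t.toReal := by
  rw [hasSum_iff_tendsto_nat_of_nonneg
    (fun j => mul_nonneg (by positivity) (bernDig_nonneg t j))]
  have h1 : Tendsto (fun n : ℕ => (1 / 2 : ℝ) ^ n * bernRem n t) atTop (𝓝 0) := by
    refine squeeze_zero (fun n => mul_nonneg (by positivity) (bernRem_mem t ht n).1)
      (fun n => ?_) (tendsto_pow_atTop_nhds_zero_of_lt_one (by norm_num) (by norm_num :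
        (1 / 2 : ℝ) < 1))
    have h0 : (0 : ℝ) ≤ (1 / 2 : ℝ) ^ n := by positivity
    calc (1 / 2 : ℝ) ^ n * bernRem n t ≤ (1 / 2 : ℝ) ^ n * 1 :=
          mul_le_mul_of_nonneg_left (bernRem_mem t ht n).2 h0
      _ = (1 / 2 : ℝ) ^ n := mul_one _
  have h2 : Tendsto (fun n : ℕ => t.toReal - (1 / 2 : ℝ) ^ n * bernRem n t) atTop
      (𝓝 (t.toReal - 0)) := tendsto_const_nhds.sub h1
  rw [sub_zero] at h2
  refine h2.congr (fun n => ?_)
  have := bern_partial t n
  linarith

/-- first success at time `j` -/
def bernFirst (j : ℕ) : Set (ℕ → Bool) := {u | u j = true ∧ ∀ i < j, u i = false}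

lemma bernFirst_measurable (j : ℕ) : MeasurableSet (bernFirst j) := by
  have hc : ∀ (i : ℕ) (c : Bool), MeasurableSet {u : ℕ → Bool | u i = c} := by
    intro i c
    have h := (measurable_pi_apply (X := fun _ : ℕ => Bool) i) (measurableSet_singleton c)
    exact h
  have h1 : MeasurableSet {u : ℕ → Bool | u j = true} := hc j true
  have h2 : MeasurableSet {u : ℕ → Bool | ∀ i < j, u i = false} := by
    have : {u : ℕ → Bool | ∀ i < j, u i = false} = ⋂ i ∈ Finset.range j, {u | u i = false} := by
      ext u; simp
    rw [this]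
    exact Finset.measurableSet_biInter _ (fun i _ => hc i false)
  exact h1.inter h2

lemma fair_singleton (c : Bool) : fair {c} = (2 : ENNReal)⁻¹ := by
  rw [fair, Measure.smul_apply, Measure.count_singleton, smul_eq_mul, mul_one]

lemma bernFirst_coins (j : ℕ) : coins ℕ (bernFirst j) = (2 : ENNReal)⁻¹ ^ (j + 1) := by
  have h : bernFirst j = Set.pi (↑(Finset.range (j + 1)) : Set ℕ)
      (fun i => if i = j then {true} else {false}) := by
    ext u
    simp only [bernFirst, Set.mem_pi, Finset.coe_range, Set.mem_Iio]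
    constructor
    · rintro ⟨h1, h2⟩ i hi
      by_cases hij : i = j
      · subst hij; simp [h1]
      · have : i < j := by omega
        simp [hij, h2 i this]
    · intro h
      refine ⟨?_, fun i hi => ?_⟩
      · have := h j (by omega)
        simpa using this
      · have := h i (by omega)
        simpa [hi.ne] using this
  rw [h, coins, Measure.infinitePi_pi]
  · have : ∀ i ∈ Finset.range (j + 1),
        fair (if i = j then ({true} : Set Bool) else {false}) = (2 : ENNReal)⁻¹ := by
      intro i _
      split_ifs <;> exact fair_singleton _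
    rw [Finset.prod_congr rfl this]
    simp
  · intro i _
    exact MeasurableSet.of_discrete

lemma bernFirst_disj : Pairwise (Function.onFun Disjoint bernFirst) := by
  intro i j hij
  rw [Function.onFun, Set.disjoint_left]
  rintro u ⟨h1, h2⟩ ⟨h3, h4⟩
  rcases lt_or_gt_of_ne hij with h | h
  · have := h4 i h
    rw [h1] at this
    exact Bool.noConfusion this
  · have := h2 j h
    rw [h3] at this
    exact Bool.noConfusion this

open Classical in
/-- a Bernoulli(t) variable made of fair coins, jointly measurable in `t` and the coins -/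
theorem exists_bern : ∃ b : ENNReal × (ℕ → Bool) → Bool, Measurable b ∧
    ∀ t : ENNReal, t ≤ 1 → coins ℕ {u : ℕ → Bool | b (t, u) = true} = t := by
  refine ⟨fun p => decide (∃ j, p.2 ∈ bernFirst j ∧ (1 / 2 : ℝ) ≤ bernRem j p.1), ?_, ?_⟩
  · refine measurable_to_bool ?_
    have : (fun p : ENNReal × (ℕ → Bool) => decide (∃ j, p.2 ∈ bernFirst j ∧
        (1 / 2 : ℝ) ≤ bernRem j p.1)) ⁻¹' {true} =
        ⋃ j, (Prod.snd ⁻¹' (bernFirst j) ∩ {p | (1 / 2 : ℝ) ≤ bernRem j p.1}) := by
      ext p
      simp
    rw [this]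
    refine MeasurableSet.iUnion (fun j => MeasurableSet.inter ?_ ?_)
    · exact measurable_snd (bernFirst_measurable j)
    · exact measurableSet_le measurable_const ((bernRem_measurable j).comp measurable_fst)
  · intro t ht
    have h1 : {u : ℕ → Bool | decide (∃ j, u ∈ bernFirst j ∧ (1 / 2 : ℝ) ≤ bernRem j t) = true}
        = ⋃ j, (bernFirst j ∩ {u | (1 / 2 : ℝ) ≤ bernRem j t}) := by
      ext u; simp
    change coins ℕ {u : ℕ → Bool | decide (∃ j, u ∈ bernFirst j ∧
      (1 / 2 : ℝ) ≤ bernRem j t) = true} = t
    rw [h1, measure_iUnion]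
    · have h2 : ∀ j, coins ℕ (bernFirst j ∩ {u | (1 / 2 : ℝ) ≤ bernRem j t}) =
          ENNReal.ofReal ((1 / 2 : ℝ) ^ (j + 1) * bernDig j t) := by
        intro j
        by_cases h : (1 / 2 : ℝ) ≤ bernRem j t
        · have hs : bernFirst j ∩ {u | (1 / 2 : ℝ) ≤ bernRem j t} = bernFirst j := by
            ext u; exact ⟨fun h' => h'.1, fun h' => ⟨h', h⟩⟩
          have hd : bernDig j t = 1 := by unfold bernDig; rw [if_pos h]
          rw [hs, bernFirst_coins, hd, mul_one, ENNReal.ofReal_pow (by norm_num)]
          congr 1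
          rw [one_div, ENNReal.ofReal_inv_of_pos (by norm_num)]
          simp
        · have hs : bernFirst j ∩ {u | (1 / 2 : ℝ) ≤ bernRem j t} = ∅ := by
            ext u; simp only [Set.mem_inter_iff, Set.mem_empty_iff_false, iff_false]
            rintro ⟨_, h'⟩
            exact h h'
          have hd : bernDig j t = 0 := by unfold bernDig; rw [if_neg h]
          rw [hs, hd]; simp
      simp_rw [h2]
      rw [← ENNReal.ofReal_tsum_of_nonneg
        (fun j => mul_nonneg (by positivity) (bernDig_nonneg t j)) (bern_hasSum t ht).summable,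
        (bern_hasSum t ht).tsum_eq]
      exact ENNReal.ofReal_toReal (ne_top_of_le_ne_top ENNReal.one_ne_top ht)
    · intro i j hij
      exact (bernFirst_disj hij).mono Set.inter_subset_left Set.inter_subset_left
    · intro j
      exact (bernFirst_measurable j).inter (MeasurableSet.const _)

end Pool.Agent.SeqK
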