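import Mathlib
import Pool.Agent.SeqK.Base
import Pool.Agent.SeqK.Bern

namespace Pool.Agent.SeqK

open MeasureTheory Topology Filter ProbabilityTheory
open scoped ENNReal

/-- two finite measures on a cube that agree on all finite patterns are equal -/
theorem couple_ext {J : Type*} (μ₁ μ₂ : Measure (J → Bool)) [IsFiniteMeasure μ₁]
    [IsFiniteMeasure μ₂]
    (h : ∀ (G : Finset J) (b : J → Bool),
      μ₁ {y | ∀ j ∈ G, y j = b j} = μ₂ {y | ∀ j ∈ G, y j = b j}) : μ₁ = μ₂ := by
  classical
  have h1 : IsProjectiveLimit μ₁ (fun I : Finset J => μ₁.map I.restrict) := fun I => rfl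
  have h2 : IsProjectiveLimit μ₂ (fun I : Finset J => μ₁.map I.restrict) := by
    intro I
    refine Measure.ext_of_singleton fun a => ?_
    rw [Measure.map_apply (Finset.measurable_restrict I) (measurableSet_singleton a),
      Measure.map_apply (Finset.measurable_restrict I) (measurableSet_singleton a)]
    have e : (I.restrict ⁻¹' {a} : Set (J → Bool)) =
        {y | ∀ j ∈ I, y j = (if hj : j ∈ I then a ⟨j, hj⟩ else false)} := by
      ext y
      simp only [Set.mem_preimage, Set.mem_singleton_iff, Set.mem_ofPred_eq]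
      constructor
      · intro hy j hj
        rw [dif_pos hj, ← hy]
        rfl
      · intro hy
        funext j
        have := hy j.1 j.2
        rw [dif_pos j.2] at this
        exact this
    rw [e, h]
  have : ∀ I : Finset J, IsFiniteMeasure (μ₁.map I.restrict) := fun I => inferInstance
  exact h1.unique h2

section

variable {Θ : Type} [LinearOrder Θ] [WellFoundedLT Θ]

/-- restriction to the coordinates below `θ` -/
def couple_res (θ : Θ) (y : Θ → Bool) : Set.Iio θ → Bool := fun δ => y δ.1

omit [WellFoundedLT Θ] in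
theorem couple_res_measurable (θ : Θ) : Measurable (couple_res θ) :=
  measurable_pi_lambda _ fun _ => measurable_pi_apply _

/-- the transfinite recursion -/
noncomputable def coupleX (b : ℝ≥0∞ × (ℕ → Bool) → Bool) (h : ∀ θ : Θ, (Set.Iio θ → Bool) → ℝ≥0∞)
    (ω : Θ → ℕ → Bool) : Θ → Bool :=
  (wellFounded_lt (α := Θ)).fix
    (fun θ rec => b (h θ (fun δ : Set.Iio θ => rec δ.1 δ.2), ω θ))

theorem coupleX_eq (b : ℝ≥0∞ × (ℕ → Bool) → Bool) (h : ∀ θ : Θ, (Set.Iio θ → Bool) → ℝ≥0∞)
    (ω : Θ → ℕ → Bool) (θ : Θ) :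
    coupleX b h ω θ = b (h θ (couple_res θ (coupleX b h ω)), ω θ) := by
  unfold coupleX
  rw [WellFounded.fix_eq]
  rfl

/-- the sigma-algebra generated by the coins with index in `S` -/
@[reducible] def coupleM (S : Set Θ) : MeasurableSpace (Θ → ℕ → Bool) :=
  ⨆ δ ∈ S, MeasurableSpace.comap (fun ω : Θ → ℕ → Bool => ω δ) inferInstance

omit [LinearOrder Θ] [WellFoundedLT Θ] in
theorem coupleM_mono {S T : Set Θ} (h : S ⊆ T) : coupleM S ≤ coupleM T :=
  biSup_mono fun _ hδ => h hδ

omit [LinearOrder Θ] [WellFoundedLT Θ] in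
theorem coupleM_le (S : Set Θ) : coupleM S ≤ MeasurableSpace.pi := by
  refine iSup₂_le fun δ _ => ?_
  exact le_iSup (fun δ : Θ => MeasurableSpace.comap (fun ω : Θ → ℕ → Bool => ω δ) inferInstance) δ

theorem coupleX_measurable (b : ℝ≥0∞ × (ℕ → Bool) → Bool) (hb : Measurable b)
    (h : ∀ θ : Θ, (Set.Iio θ → Bool) → ℝ≥0∞) (hh : ∀ θ, Measurable (h θ)) (θ : Θ) :
    Measurable[coupleM (Set.Iic θ)] (fun ω => coupleX b h ω θ) := by
  induction θ using (wellFounded_lt (α := Θ)).induction with
  | _ θ ih =>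
    have e : (fun ω => coupleX b h ω θ) =
        fun ω => b (h θ (couple_res θ (coupleX b h ω)), ω θ) := by
      funext ω; exact coupleX_eq b h ω θ
    rw [e]
    have h1 : Measurable[coupleM (Set.Iic θ)] (fun ω => couple_res θ (coupleX b h ω)) := by
      refine @measurable_pi_lambda _ _ _ (coupleM (Set.Iic θ)) _ _ fun δ => ?_
      exact (ih δ.1 δ.2).mono (coupleM_mono (Set.Iic_subset_Iic.2 (le_of_lt δ.2))) le_rfl
    have h2 : Measurable[coupleM (Set.Iic θ)] (fun ω : Θ → ℕ → Bool => ω θ) := by
      refine Measurable.mono (comap_measurable _) ?_ le_rfl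
      exact le_iSup₂_of_le θ (Set.mem_Iic.2 le_rfl) le_rfl
    exact hb.comp (((hh θ).comp h1).prodMk h2)

theorem coupleX_res_measurable (b : ℝ≥0∞ × (ℕ → Bool) → Bool) (hb : Measurable b)
    (h : ∀ θ : Θ, (Set.Iio θ → Bool) → ℝ≥0∞) (hh : ∀ θ, Measurable (h θ)) (θ : Θ) :
    Measurable[coupleM (Set.Iio θ)] (fun ω => couple_res θ (coupleX b h ω)) := by
  refine @measurable_pi_lambda _ _ _ (coupleM (Set.Iio θ)) _ _ fun δ => ?_
  exact (coupleX_measurable b hb h hh δ.1).mono
    (coupleM_mono (fun x hx => lt_of_le_of_lt hx δ.2)) le_rfl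

omit [WellFoundedLT Θ] in
/-- the coins at `θ` are independent of the coins below `θ` -/
theorem couple_indep (θ : Θ) :
    Indep (coupleM (Set.Iio θ)) (coupleM {θ}) (Measure.infinitePi (fun _ : Θ => coins ℕ)) := by
  have h1 : iIndepFun (fun (i : Θ) (ω : Θ → ℕ → Bool) => ω i)
      (Measure.infinitePi (fun _ : Θ => coins ℕ)) :=
    iIndepFun_infinitePi (X := fun (_ : Θ) (x : ℕ → Bool) => x) (fun _ => measurable_id)
  refine indep_iSup_of_disjoint (m := fun δ : Θ =>
    MeasurableSpace.comap (fun ω : Θ → ℕ → Bool => ω δ) inferInstance)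
    (fun δ => le_iSup (fun δ : Θ =>
      MeasurableSpace.comap (fun ω : Θ → ℕ → Bool => ω δ) inferInstance) δ) h1 ?_
  rw [Set.disjoint_singleton_right]
  exact fun h => lt_irrefl _ h

theorem couple_step (b : ℝ≥0∞ × (ℕ → Bool) → Bool) (hb : Measurable b)
    (hbt : ∀ t : ℝ≥0∞, t ≤ 1 → coins ℕ {u : ℕ → Bool | b (t, u) = true} = t)
    (h : ∀ θ : Θ, (Set.Iio θ → Bool) → ℝ≥0∞) (hh : ∀ θ, Measurable (h θ)) (h1 : ∀ θ y, h θ y ≤ 1)
    (θ : Θ) (S : Set (Set.Iio θ → Bool)) (hS : MeasurableSet S) :
    Measure.infinitePi (fun _ : Θ => coins ℕ)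
        {ω | couple_res θ (coupleX b h ω) ∈ S ∧ coupleX b h ω θ = true} =
      ∫⁻ y in S, h θ y ∂((Measure.infinitePi (fun _ : Θ => coins ℕ)).map
        (fun ω => couple_res θ (coupleX b h ω))) := by
  set P := Measure.infinitePi (fun _ : Θ => coins ℕ) with hP
  have hY := coupleX_res_measurable b hb h hh θ
  have hY' : Measurable (fun ω => couple_res θ (coupleX b h ω)) :=
    hY.mono (coupleM_le _) le_rfl
  have hU' : Measurable (fun ω : Θ → ℕ → Bool => ω θ) := measurable_pi_apply θ
  have hU : Measurable[coupleM {θ}] (fun ω : Θ → ℕ → Bool => ω θ) := by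
    refine Measurable.mono (comap_measurable _) ?_ le_rfl
    exact le_iSup₂_of_le θ rfl le_rfl
  have hind : IndepFun (fun ω => couple_res θ (coupleX b h ω)) (fun ω : Θ → ℕ → Bool => ω θ) P := by
    rw [IndepFun_iff_Indep]
    exact indep_of_indep_of_le_left (indep_of_indep_of_le_right (couple_indep θ)
      hU.comap_le) hY.comap_le
  have hmap := (indepFun_iff_map_prod_eq_prod_map_map hY'.aemeasurable hU'.aemeasurable).1 hind
  have hUlaw : P.map (fun ω : Θ → ℕ → Bool => ω θ) = coins ℕ :=
    Measure.infinitePi_map_eval (fun _ : Θ => coins ℕ) θ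
  rw [hUlaw] at hmap
  set Q := P.map (fun ω => couple_res θ (coupleX b h ω)) with hQ
  have : IsProbabilityMeasure Q := Measure.isProbabilityMeasure_map hY'.aemeasurable
  let D : Set ((Set.Iio θ → Bool) × (ℕ → Bool)) := {p | p.1 ∈ S ∧ b (h θ p.1, p.2) = true}
  have hbb : Measurable (fun p : (Set.Iio θ → Bool) × (ℕ → Bool) => b (h θ p.1, p.2)) :=
    hb.comp (((hh θ).comp measurable_fst).prodMk measurable_snd)
  have hD : MeasurableSet D := by
    refine MeasurableSet.inter (measurable_fst hS) ?_
    exact hbb (measurableSet_singleton true)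
  have e1 : {ω | couple_res θ (coupleX b h ω) ∈ S ∧ coupleX b h ω θ = true} =
      (fun ω : Θ → ℕ → Bool => (couple_res θ (coupleX b h ω), ω θ)) ⁻¹' D := by
    ext ω
    simp only [D, Set.mem_ofPred_eq, Set.mem_preimage]
    rw [coupleX_eq b h ω θ]
  rw [e1, ← Measure.map_apply (hY'.prodMk hU') hD, hmap, Measure.prod_apply hD,
    ← lintegral_indicator hS]
  refine lintegral_congr fun y => ?_
  by_cases hy : y ∈ S
  · rw [Set.indicator_of_mem hy]
    have : (Prod.mk y ⁻¹' D) = {u : ℕ → Bool | b (h θ y, u) = true} := by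
      ext u
      simp [D, hy]
    rw [this, hbt _ (h1 θ y)]
  · rw [Set.indicator_of_notMem hy]
    have : (Prod.mk y ⁻¹' D) = ∅ := by
      ext u
      simp [D, hy]
    rw [this, measure_empty]

end

/-- every probability measure on a cube is the law of a random vector built on fair coins
(transfinite recursion) -/
theorem exists_coupling (Θ : Type) (ν : Measure (Θ → Bool)) [IsProbabilityMeasure ν] :
    ∃ X : (Θ → ℕ → Bool) → Θ → Bool, Measurable X ∧
      (Measure.infinitePi (fun _ : Θ => coins ℕ)).map X = ν := by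
  classical
  obtain ⟨b, hb, hbt⟩ := exists_bern
  obtain ⟨lo, wf⟩ := exists_wellFoundedLT Θ
  let νlt : ∀ θ : Θ, Measure (Set.Iio θ → Bool) := fun θ => ν.map (couple_res θ)
  let ν1 : ∀ θ : Θ, Measure (Set.Iio θ → Bool) := fun θ =>
    (ν.restrict {y | y θ = true}).map (couple_res θ)
  have hfl : ∀ θ, IsProbabilityMeasure (νlt θ) := fun θ =>
    Measure.isProbabilityMeasure_map (couple_res_measurable θ).aemeasurable
  have hf1 : ∀ θ, IsFiniteMeasure (ν1 θ) := fun θ => inferInstance
  have hle : ∀ θ, ν1 θ ≤ νlt θ := fun θ =>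
    Measure.map_mono Measure.restrict_le_self (couple_res_measurable θ)
  let h : ∀ θ : Θ, (Set.Iio θ → Bool) → ℝ≥0∞ := fun θ y => min ((ν1 θ).rnDeriv (νlt θ) y) 1
  have hh : ∀ θ, Measurable (h θ) := fun θ => (Measure.measurable_rnDeriv _ _).min measurable_const
  have h1 : ∀ θ y, h θ y ≤ 1 := fun θ y => min_le_right _ _
  have hint : ∀ θ (S : Set (Set.Iio θ → Bool)), MeasurableSet S →
      ∫⁻ y in S, h θ y ∂(νlt θ) = ν1 θ S := by
    intro θ S hS
    have hae : h θ =ᵐ[νlt θ] (ν1 θ).rnDeriv (νlt θ) := by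
      filter_upwards [Measure.rnDeriv_le_one_of_le (hle θ)] with y hy
      exact min_eq_left hy
    rw [setLIntegral_congr_fun_ae hS (hae.mono fun y hy _ => hy)]
    exact Measure.setLIntegral_rnDeriv (Measure.absolutelyContinuous_of_le (hle θ)) S
  set P := Measure.infinitePi (fun _ : Θ => coins ℕ) with hP
  let X := coupleX b h
  have hXθ : ∀ θ, Measurable (fun ω => X ω θ) := fun θ =>
    (coupleX_measurable b hb h hh θ).mono (coupleM_le _) le_rfl
  have hX : Measurable X := measurable_pi_lambda _ hXθ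
  have hXr : ∀ θ, Measurable (fun ω => couple_res θ (X ω)) := fun θ =>
    (couple_res_measurable θ).comp hX
  -- the step
  have hstep : ∀ θ, P.map (fun ω => couple_res θ (X ω)) = νlt θ →
      ∀ (S : Set (Set.Iio θ → Bool)), MeasurableSet S → ∀ c : Bool,
      P {ω | couple_res θ (X ω) ∈ S ∧ X ω θ = c} = ν {y | couple_res θ y ∈ S ∧ y θ = c} := by
    intro θ hA S hS
    have ht : P {ω | couple_res θ (X ω) ∈ S ∧ X ω θ = true} =
        ν {y | couple_res θ y ∈ S ∧ y θ = true} := by
      have := couple_step b hb hbt h hh h1 θ S hS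
      rw [← hP] at this
      rw [this, hA, hint θ S hS]
      simp only [ν1]
      rw [Measure.map_apply (couple_res_measurable θ) hS,
        Measure.restrict_apply (couple_res_measurable θ hS)]
      rfl
    have hm1 : MeasurableSet {ω | couple_res θ (X ω) ∈ S ∧ X ω θ = true} :=
      (hXr θ hS).inter (hXθ θ (measurableSet_singleton true))
    have hm3 : MeasurableSet ((fun y : Θ → Bool => y θ) ⁻¹' {true}) :=
      measurable_pi_apply θ (measurableSet_singleton true)
    have hm2 : MeasurableSet {y : Θ → Bool | couple_res θ y ∈ S ∧ y θ = true} :=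
      (couple_res_measurable θ hS).inter hm3
    have hT : P {ω | couple_res θ (X ω) ∈ S} = ν {y | couple_res θ y ∈ S} := by
      have e1 : P {ω | couple_res θ (X ω) ∈ S} = P.map (fun ω => couple_res θ (X ω)) S := by
        rw [Measure.map_apply (hXr θ) hS]; rfl
      rw [e1, hA]
      simp only [νlt]
      rw [Measure.map_apply (couple_res_measurable θ) hS]
      rfl
    intro c
    cases c with
    | true => exact ht
    | false =>
      have e1 : {ω | couple_res θ (X ω) ∈ S ∧ X ω θ = false} =
          {ω | couple_res θ (X ω) ∈ S} \ {ω | couple_res θ (X ω) ∈ S ∧ X ω θ = true} := by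
        ext ω
        simp only [Set.mem_ofPred_eq, Set.mem_sdiff]
        cases hx : X ω θ <;> simp
      have e2 : {y : Θ → Bool | couple_res θ y ∈ S ∧ y θ = false} =
          {y | couple_res θ y ∈ S} \ {y | couple_res θ y ∈ S ∧ y θ = true} := by
        ext y
        simp only [Set.mem_ofPred_eq, Set.mem_sdiff]
        cases hx : y θ <;> simp
      have s1 : {ω | couple_res θ (X ω) ∈ S ∧ X ω θ = true} ⊆ {ω | couple_res θ (X ω) ∈ S} :=
        fun ω hω => hω.1
      have s2 : {y : Θ → Bool | couple_res θ y ∈ S ∧ y θ = true} ⊆ {y | couple_res θ y ∈ S} :=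
        fun ω hω => hω.1
      rw [e1, e2, measure_sdiff s1 hm1.nullMeasurableSet (measure_ne_top _ _),
        measure_sdiff s2 hm2.nullMeasurableSet (measure_ne_top _ _), hT, ht]
  -- patterns
  have hpat : ∀ (G : Finset Θ) (c : Θ → Bool),
      (∀ θ ∈ G, P.map (fun ω => couple_res θ (X ω)) = νlt θ) →
      P {ω | ∀ θ ∈ G, X ω θ = c θ} = ν {y | ∀ θ ∈ G, y θ = c θ} := by
    intro G c hG
    rcases G.eq_empty_or_nonempty with rfl | hne
    · simp
    · let θ := G.max' hne
      have hθ : θ ∈ G := G.max'_mem hne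
      let S : Set (Set.Iio θ → Bool) := {y | ∀ δ : Set.Iio θ, δ.1 ∈ G → y δ = c δ.1}
      have hS : MeasurableSet S := by
        have : S = ⋂ δ ∈ {δ : Set.Iio θ | δ.1 ∈ G}, {y | y δ = c δ.1} := by
          ext y; simp [S]
        rw [this]
        refine MeasurableSet.biInter ?_ fun δ _ => ?_
        · refine Set.Finite.countable ?_
          exact Set.Finite.preimage Subtype.val_injective.injOn G.finite_toSet
        · exact measurable_pi_apply δ (measurableSet_singleton _)
      have key : ∀ y : Θ → Bool, (∀ δ ∈ G, y δ = c δ) ↔ (couple_res θ y ∈ S ∧ y θ = c θ) := by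
        intro y
        constructor
        · intro hy
          exact ⟨fun δ hδ => hy δ.1 hδ, hy θ hθ⟩
        · rintro ⟨hy1, hy2⟩ δ hδ
          rcases lt_or_eq_of_le (G.le_max' δ hδ) with hlt | heq
          · exact hy1 ⟨δ, hlt⟩ hδ
          · rw [heq]; exact hy2
      have e1 : {ω | ∀ θ ∈ G, X ω θ = c θ} = {ω | couple_res θ (X ω) ∈ S ∧ X ω θ = c θ} := by
        ext ω; exact key (X ω)
      have e2 : {y : Θ → Bool | ∀ θ ∈ G, y θ = c θ} = {y | couple_res θ y ∈ S ∧ y θ = c θ} := by
        ext y; exact key y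
      rw [e1, e2]
      exact hstep θ (hG θ hθ) S hS (c θ)
  -- the induction
  have hA : ∀ θ, P.map (fun ω => couple_res θ (X ω)) = νlt θ := by
    intro θ
    induction θ using (wellFounded_lt (α := Θ)).induction with
    | _ θ ih =>
      have : IsProbabilityMeasure (P.map (fun ω => couple_res θ (X ω))) :=
        Measure.isProbabilityMeasure_map (hXr θ).aemeasurable
      refine couple_ext _ _ fun G c => ?_
      have hms : MeasurableSet {y : Set.Iio θ → Bool | ∀ j ∈ G, y j = c j} := by
        have : {y : Set.Iio θ → Bool | ∀ j ∈ G, y j = c j} = ⋂ j ∈ G, {y | y j = c j} := by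
          ext y; simp
        rw [this]
        exact Finset.measurableSet_biInter _ fun j _ =>
          measurable_pi_apply j (measurableSet_singleton _)
      rw [Measure.map_apply (hXr θ) hms]
      simp only [νlt]
      rw [Measure.map_apply (couple_res_measurable θ) hms]
      let c' : Θ → Bool := fun δ => if hδ : δ < θ then c ⟨δ, hδ⟩ else false
      have key : ∀ y : Θ → Bool, (∀ j ∈ G, couple_res θ y j = c j) ↔
          ∀ δ ∈ G.image Subtype.val, y δ = c' δ := by
        intro y
        simp only [Finset.mem_image, forall_exists_index, and_imp]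
        constructor
        · rintro hy δ j hj rfl
          simp only [c']
          rw [dif_pos (show j.1 < θ from j.2)]
          exact hy j hj
        · intro hy j hj
          have := hy j.1 j hj rfl
          simp only [c'] at this
          rw [dif_pos (show j.1 < θ from j.2)] at this
          exact this
      have e1 : (fun ω => couple_res θ (X ω)) ⁻¹' {y | ∀ j ∈ G, y j = c j} =
          {ω | ∀ δ ∈ G.image Subtype.val, X ω δ = c' δ} := by
        ext ω; exact key (X ω)
      have e2 : (couple_res θ) ⁻¹' {y | ∀ j ∈ G, y j = c j} =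
          {y | ∀ δ ∈ G.image Subtype.val, y δ = c' δ} := by
        ext y; exact key y
      rw [e1, e2]
      refine hpat _ _ fun δ hδ => ?_
      obtain ⟨j, _, rfl⟩ := Finset.mem_image.1 hδ
      exact ih j.1 j.2
  refine ⟨X, hX, ?_⟩
  have : IsProbabilityMeasure (P.map X) := Measure.isProbabilityMeasure_map hX.aemeasurable
  refine couple_ext _ _ fun G c => ?_
  have hms : MeasurableSet {y : Θ → Bool | ∀ j ∈ G, y j = c j} := by
    have : {y : Θ → Bool | ∀ j ∈ G, y j = c j} = ⋂ j ∈ G, {y | y j = c j} := by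
      ext y; simp
    rw [this]
    exact Finset.measurableSet_biInter _ fun j _ =>
      measurable_pi_apply j (measurableSet_singleton _)
  rw [Measure.map_apply hX hms]
  exact hpat G c fun θ _ => hA θ

end Pool.Agent.SeqK
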