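import Mathlib
import Pool.Agent.SeqK.Base

namespace Pool.Agent.SeqK

open MeasureTheory Topology Filter

open scoped symmDiff

/-- `S` depends on the coordinates in `C` only -/
def md_Dep {ι : Type} (C : Finset ι) (S : Set (ι → Bool)) : Prop :=
  ∀ y y' : ι → Bool, (∀ i ∈ C, y i = y' i) → (y ∈ S ↔ y' ∈ S)

theorem md_Dep.mono {ι : Type} {C C' : Finset ι} {S : Set (ι → Bool)} (h : md_Dep C S)
    (hC : C ⊆ C') : md_Dep C' S := fun y y' hy => h y y' fun i hi => hy i (hC hi)

theorem md_fair (b : Bool) : fair {b} = (2 : ENNReal)⁻¹ := by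
  rw [fair, Measure.smul_apply, Measure.count_singleton, smul_eq_mul, mul_one]

/-- the law of finitely many different coordinates -/
theorem md_law {κ : Type} {C : Type} [Fintype C] (f : C → κ) (hf : Function.Injective f)
    (b : C → Bool) :
    (coins κ) {y | ∀ i, y (f i) = b i} = (2 : ENNReal)⁻¹ ^ Fintype.card C := by
  classical
  let t : κ → Set Bool := fun k => {x | ∀ i, f i = k → x = b i}
  have h1 : {y : κ → Bool | ∀ i, y (f i) = b i} =
      Set.pi ((Finset.univ.image f : Finset κ) : Set κ) t := by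
    ext y
    constructor
    · intro h k hk i hi
      rw [← hi]
      exact h i
    · intro h i
      exact h (f i) (Finset.mem_coe.2 (Finset.mem_image_of_mem f (Finset.mem_univ i))) i rfl
  have h2 : ∀ i : C, fair (t (f i)) = 2⁻¹ := by
    intro i
    have h3 : t (f i) = {b i} := by
      ext x
      constructor
      · intro h
        exact h i rfl
      · intro h j hj
        have hx : x = b i := h
        rw [hx, hf hj]
    rw [h3, md_fair]
  rw [h1, coins, Measure.infinitePi_pi _ (fun i _ => Set.Finite.measurableSet (Set.toFinite _)),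
    Finset.prod_image (fun x _ y _ h => hf h), Finset.prod_congr rfl (fun i _ => h2 i),
    Finset.prod_const, Finset.card_univ]

theorem md_meas {κ C : Type} (f : C → κ) :
    Measurable fun (y : κ → Bool) (i : C) => y (f i) :=
  measurable_pi_lambda _ fun _ => measurable_pi_apply _

theorem md_map {κ ι C : Type} [Fintype C] (f : C → κ) (hf : Function.Injective f)
    (g : C → ι) (hg : Function.Injective g) :
    (coins κ).map (fun y i => y (f i)) = (coins ι).map (fun y i => y (g i)) := by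
  apply Measure.ext_of_singleton
  intro b
  rw [Measure.map_apply (md_meas f) (measurableSet_singleton b),
    Measure.map_apply (md_meas g) (measurableSet_singleton b)]
  have h1 : (fun (y : κ → Bool) (i : C) => y (f i)) ⁻¹' {b} = {y | ∀ i, y (f i) = b i} := by
    ext y
    exact funext_iff
  have h2 : (fun (y : ι → Bool) (i : C) => y (g i)) ⁻¹' {b} = {y | ∀ i, y (g i) = b i} := by
    ext y
    exact funext_iff
  rw [h1, h2, md_law f hf, md_law g hg]

open Classical in
/-- extension of a partial point by `false` -/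
noncomputable def md_ext {ι : Type} (C : Finset ι) (b : C → Bool) (i : ι) : Bool :=
  if h : i ∈ C then b ⟨i, h⟩ else false

theorem md_dep_iff {ι : Type} {C : Finset ι} {S : Set (ι → Bool)} (h : md_Dep C S)
    (y : ι → Bool) : y ∈ S ↔ md_ext C (fun i : C => y i.1) ∈ S := by
  apply h
  intro i hi
  unfold md_ext
  rw [dif_pos hi]

theorem md_measurable {ι : Type} {C : Finset ι} {S : Set (ι → Bool)} (h : md_Dep C S) :
    MeasurableSet S := by
  have h1 : S = (fun (y : ι → Bool) (i : C) => y i.1) ⁻¹' {b | md_ext C b ∈ S} := by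
    ext y
    exact md_dep_iff h y
  rw [h1]
  exact md_meas _ (Set.Finite.measurableSet (Set.toFinite _))

/-- transport of the measure of sets depending on separated coordinates -/
theorem md_transport {ι κ : Type} (f : ι → κ) (C : Finset ι) (hf : Set.InjOn f C)
    (S : Set (ι → Bool)) (hS : md_Dep C S) :
    (coins κ).real {φ | (fun i => φ (f i)) ∈ S} = (coins ι).real S := by
  have h1 : S = (fun (y : ι → Bool) (i : C) => y i.1) ⁻¹' {b | md_ext C b ∈ S} := by
    ext y
    exact md_dep_iff hS y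
  have h2 : {φ : κ → Bool | (fun i => φ (f i)) ∈ S} =
      (fun (y : κ → Bool) (i : C) => y (f i.1)) ⁻¹' {b | md_ext C b ∈ S} := by
    ext φ
    exact md_dep_iff hS _
  have h3 := md_map (fun i : C => f i.1) (fun i j h => Subtype.ext (hf i.2 j.2 h))
    (fun i : C => i.1) Subtype.val_injective
  have hm : MeasurableSet {b : C → Bool | md_ext C b ∈ S} :=
    Set.Finite.measurableSet (Set.toFinite _)
  rw [h2]
  conv_rhs => rw [h1]
  unfold Measure.real
  rw [← Measure.map_apply (md_meas _) hm, ← Measure.map_apply (md_meas _) hm, h3]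

/-- counting is the coin measure -/
theorem md_card {κ : Type} [Fintype κ] [DecidableEq κ] (P : (κ → Bool) → Prop) :
    (Nat.card {φ : κ → Bool // P φ} : ℝ) / (Nat.card (κ → Bool) : ℝ) =
      (coins κ).real {φ | P φ} := by
  classical
  have h1 : ∀ φ : κ → Bool, (coins κ).real {φ} = (2⁻¹ : ℝ) ^ Fintype.card κ := by
    intro φ
    have h2 : ({φ} : Set (κ → Bool)) = {y | ∀ i, y (id i) = φ i} := by
      ext y
      exact funext_iff
    unfold Measure.real
    rw [h2, md_law id Function.injective_id, ENNReal.toReal_pow, ENNReal.toReal_inv]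
    norm_num
  have h2 : {φ : κ → Bool | P φ} = ((Finset.univ.filter P : Finset (κ → Bool)) : Set _) := by
    ext φ
    simp
  rw [h2, ← sum_measureReal_singleton, Finset.sum_congr rfl (fun φ _ => h1 φ), Finset.sum_const,
    nsmul_eq_mul, Nat.card_eq_fintype_card, Nat.card_eq_fintype_card, Fintype.card_subtype,
    Fintype.card_fun, Fintype.card_bool, div_eq_mul_inv, inv_pow]
  push_cast
  rfl

theorem md_close {Ω Θ : Type} [MeasurableSpace Ω] (μ : Measure Ω) [IsFiniteMeasure μ]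
    (G : Finset Θ) (b : Θ → Bool) (P Q : Θ → Set Ω) (hP : ∀ θ ∈ G, MeasurableSet (P θ))
    (hQ : ∀ θ ∈ G, MeasurableSet (Q θ)) :
    |μ.real {ω | ∀ θ ∈ G, (ω ∈ P θ ↔ b θ = true)} - μ.real {ω | ∀ θ ∈ G, (ω ∈ Q θ ↔ b θ = true)}| ≤
      ∑ θ ∈ G, μ.real (P θ ∆ Q θ) := by
  have hmeas : ∀ R : Θ → Set Ω, (∀ θ ∈ G, MeasurableSet (R θ)) →
      MeasurableSet {ω | ∀ θ ∈ G, (ω ∈ R θ ↔ b θ = true)} := by
    intro R hR
    have h1 : {ω | ∀ θ ∈ G, (ω ∈ R θ ↔ b θ = true)} =
        ⋂ θ ∈ G, {ω | (ω ∈ R θ ↔ b θ = true)} := by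
      ext ω
      simp
    rw [h1]
    refine MeasurableSet.biInter (Finset.countable_toSet G) ?_
    intro θ hθ
    cases hb : b θ with
    | false =>
      have h2 : {ω | (ω ∈ R θ ↔ false = true)} = (R θ)ᶜ := by
        ext ω
        simp
      rw [h2]
      exact (hR θ hθ).compl
    | true =>
      have h2 : {ω | (ω ∈ R θ ↔ true = true)} = R θ := by
        ext ω
        simp
      rw [h2]
      exact hR θ hθ
  refine (abs_measureReal_sub_le_measureReal_symmDiff (hmeas P hP).nullMeasurableSet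
    (hmeas Q hQ).nullMeasurableSet).trans ?_
  refine (measureReal_mono (s₂ := ⋃ θ ∈ G, P θ ∆ Q θ) ?_ (measure_ne_top _ _)).trans
    (measureReal_biUnion_finset_le G _)
  intro ω hω
  by_contra hcon
  have h1 : ∀ θ ∈ G, (ω ∈ P θ ↔ ω ∈ Q θ) := by
    intro θ hθ
    by_contra h2
    apply hcon
    refine Set.mem_biUnion (Finset.mem_coe.2 hθ) ?_
    rw [Set.mem_symmDiff]
    tauto
  have h2 : ω ∈ {ω | ∀ θ ∈ G, (ω ∈ P θ ↔ b θ = true)} ↔
      ω ∈ {ω | ∀ θ ∈ G, (ω ∈ Q θ ↔ b θ = true)} := by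
    constructor
    · intro h θ hθ
      rw [← h1 θ hθ]
      exact h θ hθ
    · intro h θ hθ
      rw [h1 θ hθ]
      exact h θ hθ
  rw [Set.mem_symmDiff] at hω
  tauto

/-- approximation by sets depending on finitely many coordinates -/
theorem md_approx {ι : Type} (S : Set (ι → Bool)) (hS : MeasurableSet S) (ε : ℝ) (hε : 0 < ε) :
    ∃ (C : Finset ι) (Y : Set (ι → Bool)), md_Dep C Y ∧ (coins ι).real (Y ∆ S) ≤ ε := by
  obtain ⟨Y, hY, hYS⟩ := exists_measure_symmDiff_lt_of_generateFrom_isSetRing (μ := coins ι)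
    (C := measurableCylinders (fun _ : ι => Bool)) isSetRing_measurableCylinders
    ⟨{Set.univ}, Set.countable_singleton _,
      Set.singleton_subset_iff.2 (univ_mem_measurableCylinders _), by simp⟩
    generateFrom_measurableCylinders.symm hS (ENNReal.ofReal_pos.2 hε)
  obtain ⟨C, T, -, rfl⟩ := (mem_measurableCylinders _).1 hY
  refine ⟨C, cylinder C T, ?_, ?_⟩
  · intro y y' h
    rw [mem_cylinder, mem_cylinder]
    have h1 : C.restrict y = C.restrict y' := by
      funext i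
      exact h i.1 i.2
    rw [h1]
  · exact (ENNReal.toReal_lt_of_lt_ofReal hYS).le

/-- finitely many different codes are separated at all large levels -/
theorem md_sep {ι : Type} (c : ι → ℕ → Bool) (hc : Function.Injective c) (A : Finset ι) :
    ∃ N : ℕ, ∀ n ≥ N, Set.InjOn (fun (i : ι) (j : Fin n) => c i j) (A : Set ι) := by
  classical
  have h1 : ∀ p : ι × ι, ∃ m : ℕ, p.1 ≠ p.2 → c p.1 m ≠ c p.2 m := by
    intro p
    by_cases h : p.1 = p.2
    · exact ⟨0, fun h' => absurd h h'⟩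
    · obtain ⟨m, hm⟩ := Function.ne_iff.1 (fun h' => h (hc h'))
      exact ⟨m, fun _ => hm⟩
  choose m hm using h1
  refine ⟨(A ×ˢ A).sup fun p => m p + 1, ?_⟩
  intro n hn i hi i' hi' heq
  by_contra hne
  have h2 : m (i, i') + 1 ≤ n :=
    (Finset.le_sup (f := fun p => m p + 1) (Finset.mk_mem_product hi hi')).trans hn
  exact hm (i, i') hne (congrFun heq ⟨m (i, i'), by omega⟩)

/-- finite models of a random vector built on fair coins whose index set injects into `ℕ → Bool` -/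
theorem exists_model (ι Θ : Type) (c : ι → ℕ → Bool) (hc : Function.Injective c)
    (X : (ι → Bool) → Θ → Bool) (hX : Measurable X) :
    ∃ x : ∀ n : ℕ, ((Fin n → Bool) → Bool) → Θ → Bool, ∀ (G : Finset Θ) (b : Θ → Bool),
      Tendsto (fun n => (Nat.card {φ : (Fin n → Bool) → Bool // ∀ θ ∈ G, x n φ θ = b θ} : ℝ) /
        (Nat.card ((Fin n → Bool) → Bool) : ℝ)) atTop
        (𝓝 ((coins ι).real {y | ∀ θ ∈ G, X y θ = b θ})) := by
  classical
  have hXm : ∀ θ : Θ, MeasurableSet {y | X y θ = true} := by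
    intro θ
    have h1 : Measurable fun y => X y θ := (measurable_pi_apply θ).comp hX
    exact h1 (measurableSet_singleton true)
  have hap : ∀ (θ : Θ) (k : ℕ), ∃ (C : Finset ι) (Y : Set (ι → Bool)), md_Dep C Y ∧
      (coins ι).real (Y ∆ {y | X y θ = true}) ≤ (1 / 4 : ℝ) ^ k := fun θ k =>
    md_approx _ (hXm θ) _ (by positivity)
  choose C Y hCY hYX using hap
  let C' : Θ → ℕ → Finset ι := fun θ k => (Finset.range (k + 1)).biUnion (C θ)
  have hC' : ∀ θ k l, l ≤ k → md_Dep (C' θ k) (Y θ l) := fun θ k l hl =>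
    (hCY θ l).mono (Finset.subset_biUnion_of_mem (C θ) (Finset.mem_range.2 (by omega)))
  let f : ∀ n : ℕ, ι → Fin n → Bool := fun n i j => c i j
  let kk : Θ → ℕ → ℕ := fun θ n =>
    Nat.findGreatest (fun k => Set.InjOn (f n) (C' θ k : Set ι)) n
  let x : ∀ n : ℕ, ((Fin n → Bool) → Bool) → Θ → Bool := fun n φ θ =>
    decide ((fun i => φ (f n i)) ∈ Y θ (kk θ n))
  refine ⟨x, ?_⟩
  intro G b
  have hiff : ∀ (p : Prop) [Decidable p] (a : Bool), (decide p = a) ↔ (p ↔ a = true) := by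
    intro p _ a
    cases a <;> by_cases hp : p <;> simp [hp]
  have hlim : {y | ∀ θ ∈ G, X y θ = b θ} =
      {y | ∀ θ ∈ G, (y ∈ {y | X y θ = true} ↔ b θ = true)} := by
    ext y
    refine forall_congr' fun θ => forall_congr' fun _ => ?_
    show X y θ = b θ ↔ (X y θ = true ↔ b θ = true)
    cases X y θ <;> cases b θ <;> simp
  have hall : ∀ (n : ℕ) (S : Set ((Fin n → Bool) → Bool)), MeasurableSet S := fun n S =>
    md_measurable (C := Finset.univ) (fun y y' h => by
      have : y = y' := funext fun i => h i (Finset.mem_univ i)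
      rw [this])
  rw [Metric.tendsto_atTop]
  intro ε hε
  obtain ⟨K, hK⟩ : ∃ K : ℕ, 3 * (G.card : ℝ) * (1 / 4 : ℝ) ^ K < ε := by
    have h1 : Tendsto (fun K : ℕ => 3 * (G.card : ℝ) * (1 / 4 : ℝ) ^ K) atTop
        (𝓝 (3 * (G.card : ℝ) * 0)) :=
      (tendsto_pow_atTop_nhds_zero_of_lt_one (by norm_num) (by norm_num)).const_mul _
    rw [mul_zero] at h1
    exact (h1.eventually (gt_mem_nhds hε)).exists
  obtain ⟨N, hN⟩ := md_sep c hc (G.biUnion fun θ => C' θ K)
  refine ⟨max N K, fun n hn => ?_⟩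
  have hnN : N ≤ n := (le_max_left _ _).trans hn
  have hnK : K ≤ n := (le_max_right _ _).trans hn
  have hinj : Set.InjOn (f n) ((G.biUnion fun θ => C' θ K : Finset ι) : Set ι) := hN n hnN
  have hinjθ : ∀ θ ∈ G, Set.InjOn (f n) (C' θ K : Set ι) := fun θ hθ =>
    hinj.mono (Finset.coe_subset.2 (Finset.subset_biUnion_of_mem (fun θ => C' θ K) hθ))
  have hkk : ∀ θ ∈ G, K ≤ kk θ n := fun θ hθ =>
    Nat.le_findGreatest hnK (hinjθ θ hθ)
  have hkkinj : ∀ θ ∈ G, Set.InjOn (f n) (C' θ (kk θ n) : Set ι) := fun θ hθ =>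
    Nat.findGreatest_spec (P := fun k => Set.InjOn (f n) (C' θ k : Set ι)) hnK (hinjθ θ hθ)
  let r : ((Fin n → Bool) → Bool) → ι → Bool := fun φ i => φ (f n i)
  rw [md_card, Real.dist_eq]
  have e1 : {φ : (Fin n → Bool) → Bool | ∀ θ ∈ G, x n φ θ = b θ} =
      {φ | ∀ θ ∈ G, (φ ∈ r ⁻¹' (Y θ (kk θ n)) ↔ b θ = true)} := by
    ext φ
    refine forall_congr' fun θ => forall_congr' fun _ => ?_
    exact hiff _ _
  have e2 : (coins (Fin n → Bool)).real {φ | ∀ θ ∈ G, (φ ∈ r ⁻¹' (Y θ K) ↔ b θ = true)} =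
      (coins ι).real {y | ∀ θ ∈ G, (y ∈ Y θ K ↔ b θ = true)} := by
    refine md_transport (f n) (G.biUnion fun θ => C' θ K) hinj
      {y | ∀ θ ∈ G, (y ∈ Y θ K ↔ b θ = true)} ?_
    intro y y' h
    refine forall_congr' fun θ => forall_congr' fun hθ => ?_
    rw [((hC' θ K K le_rfl).mono
      (Finset.subset_biUnion_of_mem (fun θ => C' θ K) hθ)) y y' h]
  have b1 := md_close (coins (Fin n → Bool)) G b (fun θ => r ⁻¹' (Y θ (kk θ n)))
    (fun θ => r ⁻¹' (Y θ K)) (fun θ _ => hall n _) (fun θ _ => hall n _)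
  have b2 := md_close (coins ι) G b (fun θ => Y θ K) (fun θ => {y | X y θ = true})
    (fun θ _ => md_measurable (hCY θ K)) (fun θ _ => hXm θ)
  have b3 : ∀ θ ∈ G, (coins (Fin n → Bool)).real ((r ⁻¹' (Y θ (kk θ n))) ∆ (r ⁻¹' (Y θ K))) ≤
      2 * (1 / 4 : ℝ) ^ K := by
    intro θ hθ
    have h1 : (coins (Fin n → Bool)).real ((r ⁻¹' (Y θ (kk θ n))) ∆ (r ⁻¹' (Y θ K))) =
        (coins ι).real ((Y θ (kk θ n)) ∆ (Y θ K)) := by
      refine md_transport (f n) (C' θ (kk θ n)) (hkkinj θ hθ) ((Y θ (kk θ n)) ∆ (Y θ K)) ?_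
      intro y y' h
      rw [Set.mem_symmDiff, Set.mem_symmDiff, hC' θ _ _ le_rfl y y' h,
        hC' θ _ _ (hkk θ hθ) y y' h]
    rw [h1]
    have h2 := measureReal_symmDiff_le (μ := coins ι) (s := Y θ (kk θ n))
      (t := {y | X y θ = true}) (Y θ K)
    have h3 := hYX θ (kk θ n)
    have h4 := hYX θ K
    rw [symmDiff_comm] at h4
    have h5 : (1 / 4 : ℝ) ^ (kk θ n) ≤ (1 / 4 : ℝ) ^ K :=
      pow_le_pow_of_le_one (by norm_num) (by norm_num) (hkk θ hθ)
    linarith
  have s1 : ∑ θ ∈ G, (coins (Fin n → Bool)).real ((r ⁻¹' (Y θ (kk θ n))) ∆ (r ⁻¹' (Y θ K))) ≤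
      G.card * (2 * (1 / 4 : ℝ) ^ K) := by
    rw [← nsmul_eq_mul]
    exact Finset.sum_le_card_nsmul _ _ _ b3
  have s2 : ∑ θ ∈ G, (coins ι).real ((Y θ K) ∆ {y | X y θ = true}) ≤
      G.card * (1 / 4 : ℝ) ^ K := by
    rw [← nsmul_eq_mul]
    exact Finset.sum_le_card_nsmul _ _ _ fun θ _ => hYX θ K
  rw [hlim, e1]
  rw [e2] at b1
  have t1 := abs_sub_le ((coins (Fin n → Bool)).real
    {φ | ∀ θ ∈ G, (φ ∈ r ⁻¹' (Y θ (kk θ n)) ↔ b θ = true)})
    ((coins ι).real {y | ∀ θ ∈ G, (y ∈ Y θ K ↔ b θ = true)})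
    ((coins ι).real {y | ∀ θ ∈ G, (y ∈ {y | X y θ = true} ↔ b θ = true)})
  refine t1.trans_lt (lt_of_le_of_lt ?_ hK)
  calc _ ≤ G.card * (2 * (1 / 4 : ℝ) ^ K) + G.card * (1 / 4 : ℝ) ^ K :=
        add_le_add (b1.trans s1) (b2.trans s2)
    _ = 3 * (G.card : ℝ) * (1 / 4 : ℝ) ^ K := by ring

end Pool.Agent.SeqK
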