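import Mathlib
import Pool.Agent.SeqK.Base
import Pool.Agent.SeqK.Couple
import Pool.Agent.SeqK.Model

namespace Pool.Agent.SeqK

open MeasureTheory Topology Filter

/-- a code for `Θ × ℕ` -/
def fremCode {Θ : Type} (c : Θ → ℕ → Bool) (p : Θ × ℕ) (n : ℕ) : Bool :=
  if n % 2 = 0 then c p.1 (n / 2) else decide (n / 2 = p.2)

theorem fremCode_injective {Θ : Type} (c : Θ → ℕ → Bool) (hc : Function.Injective c) :
    Function.Injective (fremCode c) := by
  rintro ⟨θ, j⟩ ⟨θ', j'⟩ h
  have h1 : θ = θ' := by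
    apply hc
    funext n
    have := congrFun h (2 * n)
    simp only [fremCode] at this
    have e1 : 2 * n % 2 = 0 := by omega
    have e2 : 2 * n / 2 = n := by omega
    rw [if_pos e1, if_pos e1, e2] at this
    exact this
  have h2 : j = j' := by
    have := congrFun h (2 * j + 1)
    simp only [fremCode] at this
    have e1 : ¬ (2 * j + 1) % 2 = 0 := by omega
    have e2 : (2 * j + 1) / 2 = j := by omega
    rw [if_neg e1, if_neg e1, e2] at this
    simpa using this
  rw [h1, h2]

/-- every probability measure on a cube with at most continuum many coordinates is a limit of a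
sequence of finitely supported ones (on every finite set of coordinates) -/
theorem fremlin (Θ : Type) (c : Θ → ℕ → Bool) (hc : Function.Injective c)
    (ν : Measure (Θ → Bool)) [IsProbabilityMeasure ν] :
    ∃ x : ∀ n : ℕ, ((Fin n → Bool) → Bool) → Θ → Bool, ∀ (G : Finset Θ) (b : Θ → Bool),
      Tendsto (fun n => (Nat.card {φ : (Fin n → Bool) → Bool // ∀ θ ∈ G, x n φ θ = b θ} : ℝ) /
        (Nat.card ((Fin n → Bool) → Bool) : ℝ)) atTop
        (𝓝 (ν.real {y | ∀ θ ∈ G, y θ = b θ})) := by
  obtain ⟨X, hX, hν⟩ := exists_coupling Θ ν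
  let cu : (Θ × ℕ → Bool) → (Θ → ℕ → Bool) := fun ω θ j => ω (θ, j)
  have hcu : Measurable cu := measurable_pi_lambda _ fun θ =>
    measurable_pi_lambda _ fun j => measurable_pi_apply _
  have hmap : (coins (Θ × ℕ)).map cu = Measure.infinitePi (fun _ : Θ => coins ℕ) :=
    Measure.infinitePi_map_curry (fun (_ : Θ) (_ : ℕ) => fair)
  let X' : (Θ × ℕ → Bool) → Θ → Bool := fun ω => X (cu ω)
  have hX' : Measurable X' := hX.comp hcu
  obtain ⟨x, hx⟩ := exists_model (Θ × ℕ) Θ (fremCode c) (fremCode_injective c hc) X' hX'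
  refine ⟨x, fun G b => ?_⟩
  have hms : MeasurableSet {y : Θ → Bool | ∀ j ∈ G, y j = b j} := by
    have : {y : Θ → Bool | ∀ j ∈ G, y j = b j} = ⋂ j ∈ G, {y | y j = b j} := by
      ext y; simp
    rw [this]
    exact Finset.measurableSet_biInter _ fun j _ =>
      measurable_pi_apply j (measurableSet_singleton _)
  have e : (coins (Θ × ℕ)).real {y | ∀ θ ∈ G, X' y θ = b θ} =
      ν.real {y | ∀ θ ∈ G, y θ = b θ} := by
    rw [measureReal_def, measureReal_def, ← hν, ← hmap, Measure.map_map hX hcu,
      Measure.map_apply (hX.comp hcu) hms]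
    rfl
  rw [← e]
  exact hx G b

end Pool.Agent.SeqK
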