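import Mathlib
import Pool.Agent.SeqK.Base
import Pool.Agent.SeqK.IdealA
import Pool.Agent.SeqK.Space
import Pool.Agent.SeqK.CubeCont
import Pool.Agent.SeqK.Fremlin

namespace Pool.Agent.SeqK

open MeasureTheory Topology Filter

theorem meas_eval (x : KK) : Measurable[sigD KK] (fun f : C(KK, ℝ) => f x) := by
  refine Measurable.of_comap_le ?_
  exact le_iSup (fun x : KK => MeasurableSpace.comap (fun f : C(KK, ℝ) => f x) (borel ℝ)) x

theorem meas_integrable [MeasurableSpace KK] [BorelSpace KK] (ν : Measure KK) [IsFiniteMeasure ν]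
    (g : KK → ℝ) (hg : Continuous g) : Integrable g ν := by
  refine Integrable.of_bound hg.measurable.aestronglyMeasurable ‖(⟨g, hg⟩ : C(KK, ℝ))‖ ?_
  exact Filter.Eventually.of_forall fun z => (⟨g, hg⟩ : C(KK, ℝ)).norm_coe_le_norm z

theorem meas_val [MeasurableSpace KK] [BorelSpace KK] :
    Measurable (Subtype.val : KK → Th → Bool) := by
  rw [measurable_pi_iff]
  intro θ
  exact ((continuous_apply θ).comp continuous_subtype_val).measurable

/-- (3.4) -/
theorem measurable_integral_R [MeasurableSpace KK] [BorelSpace KK] (e : E) (ν : Measure KK)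
    [IsFiniteMeasure ν] :
    Measurable[sigD KK] (fun f : C(KK, ℝ) => ∫ z, f (R e z.1) ∂ν) := by
  let _ : MeasurableSpace C(KK, ℝ) := sigD KK
  have hval : Measurable (Subtype.val : KK → Th → Bool) := meas_val
  have hfin : IsFiniteMeasure (ν.map Subtype.val : Measure (Th → Bool)) :=
    Measure.isFiniteMeasure_map ν _
  have hcont : ∀ f : C(KK, ℝ), Continuous (fun y : Th → Bool => f (R e y)) := fun f =>
    f.continuous.comp (continuous_R e)
  have key : ∀ f : C(KK, ℝ), ∫ z, f (R e z.1) ∂ν =
      ∫ y, f (R e y) ∂(ν.map Subtype.val : Measure (Th → Bool)) := by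
    intro f
    rw [integral_map hval.aemeasurable]
    exact (cont_measurable _ (hcont f)).aestronglyMeasurable
  generalize (ν.map Subtype.val : Measure (Th → Bool)) = ν' at hfin key
  simp only [key]
  by_cases h0 : ν' = 0
  · simp only [h0, integral_zero_measure]
    exact measurable_const
  · have hne : NeZero ν' := ⟨h0⟩
    have hprob : IsProbabilityMeasure ((ν' Set.univ)⁻¹ • ν') := inferInstance
    have hc0 : ν' Set.univ ≠ 0 := by
      simpa using h0
    have hc1 : ν' Set.univ ≠ ⊤ := measure_ne_top _ _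
    have hval2 : ∀ f : C(KK, ℝ), ∫ y, f (R e y) ∂ν' =
        (ν' Set.univ).toReal * ∫ y, f (R e y) ∂((ν' Set.univ)⁻¹ • ν') := by
      intro f
      rw [integral_smul_measure, smul_eq_mul, ← mul_assoc, ENNReal.toReal_inv,
        mul_inv_cancel₀ (ENNReal.toReal_ne_zero.2 ⟨hc0, hc1⟩), one_mul]
    simp only [hval2]
    refine Measurable.const_mul ?_ _
    obtain ⟨c, hc⟩ := exists_code
    obtain ⟨x, hx⟩ := fremlin Th c hc ((ν' Set.univ)⁻¹ • ν')
    refine measurable_of_tendsto_metrizable
      (f := fun n (f : C(KK, ℝ)) => (∑ φ : (Fin n → Bool) → Bool, f (R e (x n φ))) /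
        (Nat.card ((Fin n → Bool) → Bool) : ℝ)) ?_ ?_
    · intro n
      refine Measurable.div_const ?_ _
      exact Finset.measurable_sum _ fun φ _ => meas_eval _
    · rw [tendsto_pi_nhds]
      intro f
      exact tendsto_integral_of_model Th _ x hx (fun y => f (R e y)) (hcont f)

/-- the part of the integral on the limit set -/
theorem meas_integral_L [MeasurableSpace KK] [BorelSpace KK] (ν : Measure KK)
    [IsFiniteMeasure ν] (hν : ∀ᵐ z ∂ν, ∀ e', xc z.1 e' = false) :
    Measurable[sigD KK] (fun f : C(KK, ℝ) => ∫ z, f z ∂ν) := by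
  let _ : MeasurableSpace C(KK, ℝ) := sigD KK
  have hx : ∀ e : E, Measurable (fun f : C(KK, ℝ) => ∫ z, f (R e z.1) ∂ν) :=
    fun e => measurable_integral_R e ν
  have hclose : ∀ (f : C(KK, ℝ)) (η : ℝ), 0 < η →
      IsSmall {e | η ≤ |∫ z, f (R e z.1) ∂ν - ∫ z, f z ∂ν|} := by
    intro f η hη
    have hm : 0 ≤ ν.real Set.univ := measureReal_nonneg
    have hε : 0 < η / (2 * (ν.real Set.univ + 1)) := by positivity
    refine isSmall_mono (R_approx f hε) ?_
    intro e he
    by_contra hcon
    simp only [Set.mem_ofPred_eq, not_exists, not_and, not_le] at hcon he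
    have h1 : Integrable (fun z : KK => f (R e z.1)) ν :=
      meas_integrable ν _ (f.continuous.comp ((continuous_R e).comp continuous_subtype_val))
    have h2 : Integrable (fun z : KK => f z) ν := meas_integrable ν _ f.continuous
    have h3 : ‖∫ z, (f (R e z.1) - f z) ∂ν‖ ≤
        η / (2 * (ν.real Set.univ + 1)) * ν.real Set.univ := by
      refine norm_integral_le_of_norm_le_const ?_
      filter_upwards [hν] with z hz
      exact (hcon z hz).le
    rw [integral_sub h1 h2, Real.norm_eq_abs] at h3
    have h4 : η / (2 * (ν.real Set.univ + 1)) * ν.real Set.univ < η := by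
      rw [div_mul_eq_mul_div, div_lt_iff₀ (by positivity)]
      nlinarith
    linarith
  refine measurable_of_Ioi fun r => ?_
  have hset : (fun f : C(KK, ℝ) => ∫ z, f z ∂ν) ⁻¹' Set.Ioi r =
      ⋃ j : ℕ, {f : C(KK, ℝ) | IsSmall {e | ∫ z, f (R e z.1) ∂ν ≤ r + 1 / ((j : ℝ) + 1)}} := by
    ext f
    simp only [Set.mem_preimage, Set.mem_Ioi, Set.mem_iUnion, Set.mem_ofPred_eq]
    constructor
    · intro hf
      obtain ⟨j, hj⟩ := exists_nat_one_div_lt (sub_pos.2 hf)
      refine ⟨j, isSmall_mono (hclose f (∫ z, f z ∂ν - r - 1 / ((j : ℝ) + 1)) (by linarith)) ?_⟩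
      intro e he
      simp only [Set.mem_ofPred_eq] at he ⊢
      rw [abs_sub_comm]
      refine le_trans ?_ (le_abs_self _)
      linarith
    · rintro ⟨j, hj⟩
      by_contra hcon
      have hcon' := not_lt.1 hcon
      have hj0 : (0 : ℝ) < 1 / ((j : ℝ) + 1) := by positivity
      refine not_isSmall_univ (isSmall_mono (isSmall_union hj (hclose f _ hj0)) ?_)
      intro e _
      by_cases h : ∫ z, f (R e z.1) ∂ν ≤ r + 1 / ((j : ℝ) + 1)
      · exact Or.inl h
      · refine Or.inr ?_
        simp only [Set.mem_ofPred_eq]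
        refine le_trans ?_ (le_abs_self _)
        linarith [not_le.1 h]
  rw [hset]
  refine MeasurableSet.iUnion fun j => ?_
  exact measurableSet_isSmall (fun e (f : C(KK, ℝ)) => ∫ z, f (R e z.1) ∂ν) hx _

/-- (3.7): integration against any finite measure is `σ(Δ)`-measurable -/
theorem measurable_integral_KK [MeasurableSpace KK] [BorelSpace KK] (ν : Measure KK)
    [IsFiniteMeasure ν] : Measurable[sigD KK] (fun f : C(KK, ℝ) => ∫ z, f z ∂ν) := by
  let _ : MeasurableSpace C(KK, ℝ) := sigD KK
  let B : E → Set KK := fun e => {z | xc z.1 e = true}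
  have hBm : ∀ e, MeasurableSet (B e) := by
    intro e
    have h1 : Measurable (fun z : KK => z.1 (Sum.inl e)) :=
      (measurable_pi_apply (Sum.inl e)).comp meas_val
    exact h1 (measurableSet_singleton true)
  have hBd : Pairwise (Function.onFun Disjoint B) := by
    intro e e' hne
    rw [Function.onFun, Set.disjoint_left]
    intro z hz hz'
    exact hne (z.2.1 e e' hz hz')
  have hBu : MeasurableSet (⋃ e, B e) := MeasurableSet.iUnion hBm
  have hint : ∀ f : C(KK, ℝ), Integrable (fun z => f z) ν := fun f =>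
    meas_integrable ν _ f.continuous
  have hsplit : ∀ f : C(KK, ℝ), ∫ z, f z ∂ν =
      ∫ z in ⋃ e, B e, f z ∂ν + ∫ z in (⋃ e, B e)ᶜ, f z ∂ν := fun f =>
    (integral_add_compl hBu (hint f)).symm
  simp only [hsplit]
  refine Measurable.add ?_ ?_
  · refine measurable_of_tendsto_metrizable' (atTop : Filter (Finset E))
      (f := fun s (f : C(KK, ℝ)) => ∑ e ∈ s, ∫ z in B e, f z ∂ν) ?_ ?_
    · intro s
      refine Finset.measurable_sum _ fun e _ => ?_
      have h1 : ∀ f : C(KK, ℝ), ∫ z in B e, f z ∂ν = ∫ z in B e, f (R e z.1) ∂ν := by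
        intro f
        refine setIntegral_congr_fun (hBm e) fun z hz => ?_
        rw [R_eq_self e z hz]
      simp only [h1]
      exact measurable_integral_R e (ν.restrict (B e))
    · rw [tendsto_pi_nhds]
      intro f
      exact hasSum_integral_iUnion hBm hBd (hint f).integrableOn
  · refine meas_integral_L (ν.restrict (⋃ e, B e)ᶜ) ?_
    filter_upwards [ae_restrict_mem hBu.compl] with z hz
    intro e'
    by_contra hcon
    have h1 : xc z.1 e' = true := by simpa using hcon
    exact hz (Set.mem_iUnion.2 ⟨e', h1⟩)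

end Pool.Agent.SeqK
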