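import Mathlib

namespace Pool.Agent.SeqK

open MeasureTheory Topology Filter

/-- Riesz-Markov-Kakutani for `C(K)`, `K` compact Hausdorff -/
theorem exists_measure_of_pos {K : Type*} [TopologicalSpace K] [CompactSpace K] [T2Space K]
    [MeasurableSpace K] [BorelSpace K] (φ : C(K, ℝ) →ₗ[ℝ] ℝ) (h : ∀ f, 0 ≤ f → 0 ≤ φ f) :
    ∃ μ : Measure K, IsFiniteMeasure μ ∧ μ.Regular ∧ ∀ f : C(K, ℝ), φ f = ∫ x, f x ∂μ := by
  let Λ : CompactlySupportedContinuousMap K ℝ →ₚ[ℝ] ℝ :=
    { toFun := fun g => φ g.toContinuousMap
      map_add' := fun g g' => by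
        rw [← map_add]; rfl
      map_smul' := fun c g => by
        rw [← map_smul]; rfl
      monotone' := fun g g' hgg' => by
        have h0 : (0 : C(K, ℝ)) ≤ g'.toContinuousMap - g.toContinuousMap := by
          intro x
          exact sub_nonneg.2 (hgg' x)
        have := h _ h0
        rw [map_sub] at this
        exact sub_nonneg.1 this }
  refine ⟨RealRMK.rieszMeasure Λ, by infer_instance, by infer_instance, fun f => ?_⟩
  let f' : CompactlySupportedContinuousMap K ℝ :=
    { toFun := f
      hasCompactSupport' := HasCompactSupport.of_compactSpace _ }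
  have := RealRMK.integral_rieszMeasure Λ f'
  exact this.symm

end Pool.Agent.SeqK
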