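import Mathlib
import Pool.Agent.SeqK.Base
import Pool.Agent.SeqK.CubeCont
import Pool.Agent.SeqK.Space
import Pool.Agent.SeqK.ClassC
import Pool.Agent.SeqK.Riesz

namespace Pool.Agent.SeqK

open MeasureTheory Topology Filter

open Classical in
/-- the point of the cube over the matrix `m`, with `x = 0` -/
noncomputable def mu_ptFun (m : ℕ × ℕ → Bool) : Th → Bool
  | Sum.inl _ => false
  | Sum.inr (Sum.inl p) => m p
  | Sum.inr (Sum.inr γ) => decide (∀ i, ∃ j < i + 2, m (i, j) ≠ γ.1 i j)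

lemma mu_ptFun_mem (m : ℕ × ℕ → Bool) : mu_ptFun m ∈ KSet := by
  refine ⟨?_, ?_, ?_⟩
  · intro e e' h
    simp [mu_ptFun] at h
  · intro e γ h
    simp [mu_ptFun] at h
  · intro k γ h
    left
    have h1 : ∀ i, ∃ j < i + 2, m (i, j) ≠ γ.1 i j := by
      simpa [mu_ptFun] using h
    intro i _
    exact h1 i

/-- the point of `K` over the matrix `m`, with `x = 0` -/
noncomputable def mu_pt (m : ℕ × ℕ → Bool) : KK := ⟨mu_ptFun m, mu_ptFun_mem m⟩

lemma mu_good_meas (d : Mt) :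
    MeasurableSet {m : ℕ × ℕ → Bool | ∀ i, ∃ j < i + 2, m (i, j) ≠ d i j} := by
  have h1 : {m : ℕ × ℕ → Bool | ∀ i, ∃ j < i + 2, m (i, j) ≠ d i j}
      = ⋂ i, ⋃ j, ⋃ (_ : j < i + 2), {m : ℕ × ℕ → Bool | m (i, j) ≠ d i j} := by
    ext m; simp
  rw [h1]
  refine MeasurableSet.iInter fun i => MeasurableSet.iUnion fun j => MeasurableSet.iUnion fun _ => ?_
  have h2 : Measurable (fun m : ℕ × ℕ → Bool => m (i, j)) := measurable_pi_apply (i, j)
  exact h2 (MeasurableSet.of_discrete (s := {b : Bool | b ≠ d i j}))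

lemma mu_ptFun_meas : Measurable mu_ptFun := by
  rw [measurable_pi_iff]
  intro θ
  rcases θ with e | p | γ
  · exact measurable_const
  · exact measurable_pi_apply p
  · refine measurable_to_bool ?_
    have h1 : (fun m : ℕ × ℕ → Bool => mu_ptFun m (Sum.inr (Sum.inr γ))) ⁻¹' {true}
        = {m : ℕ × ℕ → Bool | ∀ i, ∃ j < i + 2, m (i, j) ≠ γ.1 i j} := by
      ext m; simp [mu_ptFun]
    rw [h1]
    exact mu_good_meas γ.1

lemma mu_comp_meas (f : C(KK, ℝ)) : Measurable (fun m => f (mu_pt m)) := by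
  obtain ⟨g, hg⟩ := ContinuousMap.exists_restrict_eq isClosed_KSet f
  have h1 : (fun m => f (mu_pt m)) = fun m => g (mu_ptFun m) := by
    funext m
    rw [← hg]; rfl
  rw [h1]
  exact (cont_measurable g g.continuous).comp mu_ptFun_meas

lemma mu_int (f : C(KK, ℝ)) : Integrable (fun m => f (mu_pt m)) (coins (ℕ × ℕ)) := by
  refine Integrable.of_bound (mu_comp_meas f).aestronglyMeasurable ‖f‖ ?_
  exact Eventually.of_forall fun m => f.norm_coe_le_norm _

/-- the functional -/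
noncomputable def mu_lin : C(KK, ℝ) →ₗ[ℝ] ℝ where
  toFun f := ∫ m, f (mu_pt m) ∂(coins (ℕ × ℕ))
  map_add' f g := by
    simp only [ContinuousMap.add_apply]
    exact integral_add (mu_int f) (mu_int g)
  map_smul' c f := by
    simp only [ContinuousMap.smul_apply, RingHom.id_apply]
    exact integral_smul c _

lemma mu_bad (d : Mt) :
    (coins (ℕ × ℕ)) {m : ℕ × ℕ → Bool | ∀ i, ∃ j < i + 2, m (i, j) ≠ d i j}ᶜ ≤ 1 / 2 := by
  have h1 : {m : ℕ × ℕ → Bool | ∀ i, ∃ j < i + 2, m (i, j) ≠ d i j}ᶜ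
      = ⋃ i, {m : ℕ × ℕ → Bool | ∀ j < i + 2, m (i, j) = d i j} := by
    ext m; simp
  rw [h1]
  refine (measure_iUnion_le _).trans ?_
  have h2 : ∀ i, (coins (ℕ × ℕ)) {m : ℕ × ℕ → Bool | ∀ j < i + 2, m (i, j) = d i j}
      = (2 : ENNReal)⁻¹ ^ i * (2 : ENNReal)⁻¹ ^ 2 := by
    intro i
    have h3 : {m : ℕ × ℕ → Bool | ∀ j < i + 2, m (i, j) = d i j}
        = Set.pi (((Finset.range (i + 2)).image (fun j => (i, j)) : Finset (ℕ × ℕ)) :
            Set (ℕ × ℕ)) (fun p => {d p.1 p.2}) := by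
      ext m
      simp only [Set.mem_pi, Finset.coe_image, Set.mem_image, Finset.mem_coe, Finset.mem_range]
      constructor
      · rintro h p ⟨j, hj, rfl⟩
        exact h j hj
      · intro h j hj
        exact h (i, j) ⟨j, hj, rfl⟩
    have h4 : ∀ b : Bool, fair {b} = (2 : ENNReal)⁻¹ := by
      intro b
      rw [fair, Measure.smul_apply, Measure.count_singleton, smul_eq_mul, mul_one]
    rw [h3, coins, Measure.infinitePi_pi _ (fun _ _ => MeasurableSet.of_discrete)]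
    simp only [h4]
    rw [Finset.prod_const, Finset.card_image_of_injective _ (fun j j' h => (Prod.mk.inj h).2),
      Finset.card_range, pow_add]
  simp only [h2]
  rw [ENNReal.tsum_mul_right, ENNReal.tsum_geometric, ENNReal.one_sub_inv_two, inv_inv, pow_two,
    ← mul_assoc, ENNReal.mul_inv_cancel (by norm_num) (by norm_num), one_mul, one_div]

/-- the measure `μ` -/
theorem exists_mu [MeasurableSpace KK] [BorelSpace KK] :
    ∃ μ ∈ probs KK, (∀ e, μ (xF e) = 0) ∧ ∀ γ, (1 / 2 : ℝ) ≤ μ (aF γ) := by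
  have hpos : ∀ f : C(KK, ℝ), 0 ≤ f → 0 ≤ mu_lin f := fun f hf =>
    integral_nonneg fun m => hf (mu_pt m)
  obtain ⟨ν, hν1, hν2, hν3⟩ := exists_measure_of_pos mu_lin hpos
  have hone : mu_lin (1 : C(KK, ℝ)) = 1 := by
    change ∫ m, (1 : C(KK, ℝ)) (mu_pt m) ∂(coins (ℕ × ℕ)) = 1
    simp
  have hbd : ∀ f : C(KK, ℝ), ‖mu_lin f‖ ≤ 1 * ‖f‖ := by
    intro f
    have h1 := norm_integral_le_of_norm_le_const (μ := coins (ℕ × ℕ))
      (f := fun m => f (mu_pt m)) (C := ‖f‖) (Eventually.of_forall fun m => f.norm_coe_le_norm _)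
    rw [one_mul]
    refine h1.trans (le_of_eq ?_)
    simp
  refine ⟨(LinearMap.mkContinuous mu_lin 1 hbd : StrongDual ℝ C(KK, ℝ)), ?_, ?_, ?_⟩
  · refine ⟨ν, ?_, hν2, fun f => hν3 f⟩
    constructor
    have h1 := hν3 1
    rw [hone] at h1
    simp only [ContinuousMap.one_apply, integral_const, smul_eq_mul, mul_one] at h1
    have h2 : ν.real Set.univ = 1 := h1.symm
    rw [Measure.real, ENNReal.toReal_eq_one_iff] at h2
    exact h2
  · intro e
    change ∫ m, xF e (mu_pt m) ∂(coins (ℕ × ℕ)) = 0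
    have h1 : ∀ m, xF e (mu_pt m) = 0 := by
      intro m
      simp [xF, mu_pt, mu_ptFun]
    simp [h1]
  · intro γ
    change (1 / 2 : ℝ) ≤ ∫ m, aF γ (mu_pt m) ∂(coins (ℕ × ℕ))
    have h1 : (fun m => aF γ (mu_pt m)) =
        Set.indicator {m : ℕ × ℕ → Bool | ∀ i, ∃ j < i + 2, m (i, j) ≠ γ.1 i j} 1 := by
      funext m
      by_cases hm : ∀ i, ∃ j < i + 2, m (i, j) ≠ γ.1 i j
      · rw [Set.indicator_of_mem (by exact hm)]
        simp [aF, mu_pt, mu_ptFun]
        exact hm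
      · rw [Set.indicator_of_notMem (by exact hm)]
        simp [aF, mu_pt, mu_ptFun]
        simpa using hm
    rw [h1, integral_indicator_one (mu_good_meas γ.1)]
    have h2 := mu_bad γ.1
    have h3 : (coins (ℕ × ℕ)).real {m : ℕ × ℕ → Bool | ∀ i, ∃ j < i + 2, m (i, j) ≠ γ.1 i j}ᶜ
        ≤ 1 / 2 := by
      rw [Measure.real]
      refine (ENNReal.toReal_mono (by norm_num) h2).trans (le_of_eq ?_)
      simp
    rw [probReal_compl_eq_one_sub (mu_good_meas γ.1)] at h3
    linarith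

end Pool.Agent.SeqK
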