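import Mathlib
import Pool.Agent.SeqK.Base
import Pool.Agent.SeqK.IdealA
import Pool.Agent.SeqK.IdealB
import Pool.Agent.SeqK.Space
import Pool.Agent.SeqK.ClassC
import Pool.Agent.SeqK.Mu
import Pool.Agent.SeqK.Meas
import Pool.Agent.SeqK.Jordan
import Pool.Agent.SeqK.Riesz
import Pool.Agent.SeqK.EdgarB

namespace Pool.Agent.SeqK

open MeasureTheory Topology Filter

theorem seqHull_subset {X : Type*} [TopologicalSpace X] {A S : Set X} (hA : A ⊆ S)
    (hS : ∀ u : ℕ → X, (∀ n, u n ∈ S) → ∀ x, Tendsto u atTop (𝓝 x) → x ∈ S) :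
    seqHull A ⊆ S := by
  have key : ∀ α : Ordinal.{0}, seqIter A α ⊆ S := by
    intro α
    induction α using Ordinal.limitRecOn with
    | zero => rw [seqIter, Ordinal.limitRecOn_zero]; exact hA
    | add_one o ih =>
      rw [seqIter, Ordinal.limitRecOn_add_one]
      rintro x ⟨u, hu, hx⟩
      exact hS u (fun n => ih (hu n)) x hx
    | limit o ho ih =>
      rw [seqIter, Ordinal.limitRecOn_limit (h := ho)]
      rintro x ⟨β, hβ, hx⟩
      exact ih β hβ hx
  rintro x ⟨α, _, hx⟩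
  exact key α hx

theorem not_seqProp [MeasurableSpace KK] [BorelSpace KK] : ¬ SeqProp KK := by
  intro hs
  obtain ⟨μ, hμ, hx, ha⟩ := exists_mu
  have h1 : μ ∈ ClassC := by
    have : μ ∈ seqHull (convexHull ℝ (diracs KK)) := by rw [hs]; exact hμ
    exact seqHull_subset (convexHull_min diracs_subset_classC convex_classC)
      (fun u hu x hx => classC_seq u hu x hx) this
  obtain ⟨hpos, _, P, hP, Z0, hZ0, h⟩ := h1
  obtain ⟨d, hd⟩ := exists_kills hP
  have h2 := h d hd ⟨Z0, hZ0⟩ (by simp)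
  have h3 : ∀ e, μ (aF (d, ⟨Z0, hZ0⟩) * xF e) = 0 := by
    intro e
    refine le_antisymm ?_ (hpos _ ?_)
    · rw [← hx e, ← sub_nonneg, ← map_sub]
      refine hpos _ (fun z => ?_)
      change (0 : ℝ) ≤ (if xc z.1 e = true then (1 : ℝ) else 0) -
        (if ac z.1 (d, ⟨Z0, hZ0⟩) = true then (1 : ℝ) else 0) *
        (if xc z.1 e = true then (1 : ℝ) else 0)
      split_ifs <;> norm_num
    · intro z
      change (0 : ℝ) ≤ (if ac z.1 (d, ⟨Z0, hZ0⟩) = true then (1 : ℝ) else 0) *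
        (if xc z.1 e = true then (1 : ℝ) else 0)
      split_ifs <;> norm_num
  have h4 : μ (aF (d, ⟨Z0, hZ0⟩)) = 0 := by
    have : HasSum (fun e => μ (aF (d, ⟨Z0, hZ0⟩) * xF e)) 0 := by
      simp only [h3]; exact hasSum_zero
    exact h2.unique this
  have h5 := ha (d, ⟨Z0, hZ0⟩)
  rw [h4] at h5
  norm_num at h5

theorem baireProp : BaireProp KK := by
  letI : MeasurableSpace KK := borel KK
  haveI : BorelSpace KK := ⟨rfl⟩
  apply le_antisymm
  · -- pointwise continuous functions are weakly continuous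
    refine iSup_le fun g => ?_
    have hle : weakTop KK ≤ pointwiseTop KK := by
      rw [pointwiseTop, ← continuous_iff_le_induced]
      refine @continuous_pi _ _ _ (weakTop KK) _ _ fun x => ?_
      have h1 : @Continuous C(KK, ℝ) (StrongDual ℝ C(KK, ℝ) → ℝ) (weakTop KK) _
          (fun (f : C(KK, ℝ)) (φ : StrongDual ℝ C(KK, ℝ)) => φ f) := continuous_induced_dom
      exact (@continuous_pi_iff _ _ _ (weakTop KK) _ _).1 h1 (ContinuousMap.evalCLM ℝ x)
    have hg : @Continuous C(KK, ℝ) ℝ (weakTop KK) _ g.1 := by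
      exact continuous_le_dom hle g.2
    exact le_iSup (fun g : {g : C(KK, ℝ) → ℝ // @Continuous C(KK, ℝ) ℝ (weakTop KK) _ g} =>
      MeasurableSpace.comap g.1 (borel ℝ)) ⟨g.1, hg⟩
  · refine (baire_weak_le KK).trans ?_
    have h1 : sigD KK ≤ baire C(KK, ℝ) (pointwiseTop KK) := by
      refine iSup_le fun x => ?_
      have hg : @Continuous C(KK, ℝ) ℝ (pointwiseTop KK) _ (fun f => f x) := by
        have h1 : @Continuous C(KK, ℝ) (KK → ℝ) (pointwiseTop KK) _
          (fun (f : C(KK, ℝ)) (x : KK) => f x) := continuous_induced_dom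
        exact (@continuous_pi_iff _ _ _ (pointwiseTop KK) _ _).1 h1 x
      exact le_iSup (fun g : {g : C(KK, ℝ) → ℝ // @Continuous C(KK, ℝ) ℝ (pointwiseTop KK) _ g} =>
        MeasurableSpace.comap g.1 (borel ℝ)) ⟨fun f => f x, hg⟩
    refine le_trans (iSup_le fun φ => ?_) h1
    obtain ⟨φ₁, φ₂, hp1, hp2, hφ⟩ := exists_pos_sub φ
    obtain ⟨μ₁, hf1, _, hμ1⟩ := exists_measure_of_pos φ₁ hp1
    obtain ⟨μ₂, hf2, _, hμ2⟩ := exists_measure_of_pos φ₂ hp2
    have m1 := measurable_integral_KK μ₁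
    have m2 := measurable_integral_KK μ₂
    have m : Measurable[sigD KK] (fun f : C(KK, ℝ) => φ f) := by
      have e : (fun f : C(KK, ℝ) => φ f) =
          fun f => (∫ z, f z ∂μ₁) - ∫ z, f z ∂μ₂ := by
        funext f
        rw [hφ, hμ1, hμ2]
      rw [e]
      exact m1.sub m2
    have := m.comap_le
    rwa [← BorelSpace.measurable_eq (α := ℝ)]

end Pool.Agent.SeqK
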